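import Pool.Agent.Y522.Basic

/-!
# Smooth maps near the unit sphere which are the identity on the unit sphere
-/

set_option autoImplicit false

open Set Filter Topology Metric Function
open scoped Manifold ContDiff RealInnerProductSpace

noncomputable section

namespace Pool.Agent.V1127.Sf

open Pool.Agent.Y522

variable {n : ℕ}

/-- the open shell around the unit sphere -/
def A (n : ℕ) (δ : ℝ) : Set (E n) := {x | 1 - δ < ‖x‖ ∧ ‖x‖ < 1 + δ}

theorem isOpen_A (δ : ℝ) : IsOpen (A n δ) :=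
  (isOpen_lt continuous_const continuous_norm).inter (isOpen_lt continuous_norm continuous_const)

theorem A_mono {δ δ' : ℝ} (h : δ ≤ δ') : A n δ ⊆ A n δ' := fun x hx =>
  ⟨lt_of_le_of_lt (by linarith) hx.1, lt_of_lt_of_le hx.2 (by linarith)⟩

theorem shell {U : Set (E n)} (hU : U ∈ 𝓝ˢ (sphere (0 : E n) 1)) :
    ∃ δ, 0 < δ ∧ δ < 1 / 2 ∧ A n δ ⊆ U := by
  obtain ⟨V, hV, hsV, hVU⟩ := mem_nhdsSet_iff_exists.1 hU
  obtain ⟨δ, hδ, h⟩ := (isCompact_sphere (0 : E n) 1).exists_thickening_subset_open hV hsV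
  refine ⟨min δ (1 / 4), by positivity, lt_of_le_of_lt (min_le_right _ _) (by norm_num),
    fun x hx => hVU (h ?_)⟩
  have h1 : min δ (1 / 4) ≤ 1 / 4 := min_le_right _ _
  have h2 : min δ (1 / 4) ≤ δ := min_le_left _ _
  have hx0 : 0 < ‖x‖ := by
    have := hx.1
    linarith
  rw [mem_thickening_iff]
  refine ⟨‖x‖⁻¹ • x, ?_, ?_⟩
  · rw [mem_sphere_zero_iff_norm, norm_smul, norm_inv, norm_norm, inv_mul_cancel₀ hx0.ne']
  · have h3 : x - ‖x‖⁻¹ • x = (1 - ‖x‖⁻¹) • x := by rw [sub_smul, one_smul]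
    rw [dist_eq_norm, h3, norm_smul, Real.norm_eq_abs]
    have h4 : |1 - ‖x‖⁻¹| * ‖x‖ = |‖x‖ - 1| := by
      rw [← abs_of_pos hx0, ← abs_mul, abs_of_pos hx0, sub_mul, one_mul,
        inv_mul_cancel₀ hx0.ne']
    rw [h4, abs_lt]
    constructor
    · have := hx.1
      linarith
    · have := hx.2
      linarith

theorem shell_of_forall {p : E n → Prop} (h : ∀ x, ‖x‖ = 1 → ∀ᶠ y in 𝓝 x, p y) :
    ∃ δ, 0 < δ ∧ δ < 1 / 2 ∧ ∀ x ∈ A n δ, p x := by
  have h1 : {x | p x} ∈ 𝓝ˢ (sphere (0 : E n) 1) := by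
    rw [mem_nhdsSet_iff_forall]
    intro x hx
    exact h x (mem_sphere_zero_iff_norm.1 hx)
  obtain ⟨δ, h2, h3, h4⟩ := shell h1
  exact ⟨δ, h2, h3, fun x hx => h4 hx⟩

/-- the circle through `x` in direction `w` -/
def circ (x w : E n) (t : ℝ) : E n := Real.cos t • x + Real.sin t • w

theorem circ_zero (x w : E n) : circ x w 0 = x := by simp [circ]

theorem norm_circ {x w : E n} (h : ‖w‖ = ‖x‖) (hxw : ⟪x, w⟫ = 0) (t : ℝ) :
    ‖circ x w t‖ = ‖x‖ := by
  have h1 : ‖circ x w t‖ ^ 2 = ‖x‖ ^ 2 := by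
    have h2 : ‖circ x w t‖ * ‖circ x w t‖ = ‖Real.cos t • x‖ * ‖Real.cos t • x‖ +
        ‖Real.sin t • w‖ * ‖Real.sin t • w‖ := by
      refine norm_add_sq_eq_norm_sq_add_norm_sq_real ?_
      rw [inner_smul_left, inner_smul_right, hxw]
      simp
    rw [sq, h2, norm_smul, norm_smul, h]
    have h3 := Real.cos_sq_add_sin_sq t
    have h4 : ‖Real.cos t‖ * ‖Real.cos t‖ = Real.cos t ^ 2 := by
      rw [Real.norm_eq_abs, abs_mul_abs_self, sq]
    have h5 : ‖Real.sin t‖ * ‖Real.sin t‖ = Real.sin t ^ 2 := by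
      rw [Real.norm_eq_abs, abs_mul_abs_self, sq]
    calc ‖Real.cos t‖ * ‖x‖ * (‖Real.cos t‖ * ‖x‖) + ‖Real.sin t‖ * ‖x‖ * (‖Real.sin t‖ * ‖x‖)
        = (‖Real.cos t‖ * ‖Real.cos t‖ + ‖Real.sin t‖ * ‖Real.sin t‖) * ‖x‖ ^ 2 := by ring
      _ = ‖x‖ ^ 2 := by rw [h4, h5, h3, one_mul]
  exact (sq_eq_sq₀ (norm_nonneg _) (norm_nonneg _)).1 h1

theorem hasDerivAt_circ (x w : E n) : HasDerivAt (circ x w) w 0 := by
  have h1 : HasDerivAt (fun t => Real.cos t • x + Real.sin t • w)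
      ((-Real.sin 0) • x + Real.cos 0 • w) 0 :=
    ((Real.hasDerivAt_cos 0).smul_const x).add ((Real.hasDerivAt_sin 0).smul_const w)
  rw [Real.sin_zero, Real.cos_zero, neg_zero, zero_smul, zero_add, one_smul] at h1
  exact h1

/-- the curve in direction `v` on the sphere through `x` -/
theorem exists_curve {x v : E n} (hx : x ≠ 0) (hv : v ≠ 0) (hxv : ⟪x, v⟫ = 0) :
    ∃ (c : ℝ → E n) (a : ℝ), a ≠ 0 ∧ c 0 = x ∧ (∀ t, ‖c t‖ = ‖x‖) ∧ HasDerivAt c (a • v) 0 := by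
  have hv0 : ‖v‖ ≠ 0 := norm_ne_zero_iff.2 hv
  have hx0 : ‖x‖ ≠ 0 := norm_ne_zero_iff.2 hx
  refine ⟨circ x ((‖x‖ * ‖v‖⁻¹) • v), ‖x‖ * ‖v‖⁻¹, mul_ne_zero hx0 (inv_ne_zero hv0),
    circ_zero _ _, norm_circ ?_ ?_, hasDerivAt_circ _ _⟩
  · rw [norm_smul, norm_mul, norm_inv, norm_norm, norm_norm, mul_assoc, inv_mul_cancel₀ hv0,
      mul_one]
  · rw [inner_smul_right, hxv, mul_zero]

/-- derivatives along the unit sphere of maps which are the identity there -/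
theorem tang {F : E n → E n} {x : E n} (hx : ‖x‖ = 1) (hF : DifferentiableAt ℝ F x)
    (hid : ∀ y, ‖y‖ = 1 → F y = y) {v : E n} (hv : ⟪x, v⟫ = 0) : fderiv ℝ F x v = v := by
  rcases eq_or_ne v 0 with rfl | hv0
  · simp
  · have hx0 : x ≠ 0 := by
      intro h
      rw [h, norm_zero] at hx
      exact zero_ne_one hx
    obtain ⟨c, a, ha, h0, h1, h2⟩ := exists_curve hx0 hv0 hv
    have h3 : HasDerivAt (fun t => F (c t)) (fderiv ℝ F x (a • v)) 0 := by
      have h4 : HasFDerivAt F (fderiv ℝ F x) (c 0) := by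
        rw [h0]
        exact hF.hasFDerivAt
      exact h4.comp_hasDerivAt 0 h2
    have h4 : (fun t => F (c t)) = c := funext fun t => hid _ ((h1 t).trans hx)
    rw [h4] at h3
    have h5 := h3.unique h2
    rw [map_smul] at h5
    exact smul_right_injective _ ha h5

/-- injective endomorphisms -/
theorem LD_of_inj {F : E n → E n} {x : E n} (hs : ∀ᶠ y in 𝓝 x, ContDiffAt ℝ ∞ F y)
    (hi : ∀ v, fderiv ℝ F x v = 0 → v = 0) : LD n F x := by
  have h1 : Injective (fderiv ℝ F x).toLinearMap := by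
    rw [injective_iff_map_eq_zero]
    exact hi
  let A := (LinearEquiv.ofInjectiveEndo _ h1).toContinuousLinearEquiv
  have h2 : (A : E n →L[ℝ] E n) = fderiv ℝ F x := by
    ext v
    rfl
  refine LD_of_contDiffAt hs A ?_
  rw [h2]
  exact (hs.self_of_nhds.differentiableAt (by simp)).hasFDerivAt

/-- maps which are the identity on the unit sphere and do not come close to the sphere from
inside are local diffeomorphisms at the points of the sphere -/
theorem LD_sphere {F : E n → E n} {x : E n} (hx : ‖x‖ = 1)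
    (hs : ∀ᶠ y in 𝓝 x, ContDiffAt ℝ ∞ F y) (hid : ∀ y, ‖y‖ = 1 → F y = y) {ε : ℝ}
    (hε : 0 < ε) (hle : ∀ᶠ s in 𝓝[<] (1 : ℝ), ‖F (s • x)‖ ≤ 1 + ε * (s - 1)) : LD n F x := by
  have hd : DifferentiableAt ℝ F x := hs.self_of_nhds.differentiableAt (by simp)
  have hrad : ε ≤ ⟪x, fderiv ℝ F x x⟫ := by
    have h1 : HasDerivAt (fun s : ℝ => F (s • x)) (fderiv ℝ F x x) 1 := by
      have h4 : HasFDerivAt F (fderiv ℝ F x) ((1 : ℝ) • x) := by
        rw [one_smul]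
        exact hd.hasFDerivAt
      have h5 : HasDerivAt (fun s : ℝ => s • x) ((1 : ℝ) • x) 1 := (hasDerivAt_id 1).smul_const x
      rw [one_smul] at h5
      exact h4.comp_hasDerivAt 1 h5
    have h2 : HasDerivAt (fun s : ℝ => ⟪x, F (s • x)⟫) ⟪x, fderiv ℝ F x x⟫ 1 := by
      have := (hasDerivAt_const (1 : ℝ) x).inner ℝ h1
      simpa using this
    have h3 : Tendsto (slope (fun s : ℝ => ⟪x, F (s • x)⟫) 1) (𝓝[<] 1)
        (𝓝 ⟪x, fderiv ℝ F x x⟫) :=
      (hasDerivAt_iff_tendsto_slope.1 h2).mono_left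
        (nhdsWithin_mono _ fun s hs => (ne_of_lt hs : s ≠ 1))
    refine ge_of_tendsto h3 ?_
    filter_upwards [hle, self_mem_nhdsWithin] with s hs hs1
    have hs1' : s < 1 := hs1
    have h4 : ⟪x, F (s • x)⟫ ≤ 1 + ε * (s - 1) := by
      refine (real_inner_le_norm _ _).trans ?_
      rw [hx, one_mul]
      exact hs
    have h5 : ⟪x, F ((1 : ℝ) • x)⟫ = 1 := by
      rw [one_smul, hid x hx, real_inner_self_eq_norm_sq, hx, one_pow]
    rw [slope_def_field, h5, le_div_iff_of_neg (by linarith)]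
    linarith
  refine LD_of_inj hs fun v hv => ?_
  obtain ⟨α, hα⟩ : ∃ α, α = ⟪x, v⟫ := ⟨_, rfl⟩
  have hxx : ⟪x, x⟫ = 1 := by rw [real_inner_self_eq_norm_sq, hx, one_pow]
  have h1 : ⟪x, v - α • x⟫ = 0 := by
    rw [inner_sub_right, inner_smul_right, hxx, mul_one, ← hα, sub_self]
  have h2 := tang hx hd hid h1
  have h3 : fderiv ℝ F x v = α • fderiv ℝ F x x + (v - α • x) := by
    rw [← h2, ← map_smul, ← map_add]
    congr 1
    abel
  have h4 : α * ⟪x, fderiv ℝ F x x⟫ = 0 := by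
    have h5 : ⟪x, fderiv ℝ F x v⟫ = 0 := by rw [hv, inner_zero_right]
    rw [h3, inner_add_right, h1, add_zero, inner_smul_right] at h5
    exact h5
  have h5 : α = 0 := by
    rcases mul_eq_zero.1 h4 with h5 | h5
    · exact h5
    · rw [h5] at hrad
      linarith
  rw [h5, zero_smul, sub_zero] at h2
  rw [← h2, hv]

end Pool.Agent.V1127.Sf
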