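import Pool.Agent.V1127.Sf.Bdy
import Pool.Agent.V1127.Iso.BdM

/-!
# Homeomorphisms onto the ball which are smooth up to the boundary and, in the interior, near each
point smooth of corank at most one or with such an inverse
-/

set_option autoImplicit false

open Set Filter Topology Metric Function
open scoped Manifold ContDiff RealInnerProductSpace

noncomputable section

namespace Pool.Agent.V1127.Sf

open Pool.Agent.Y522 Pool.Agent.Y833.SH Pool.Agent.Y674.SH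

theorem rank_of_perp {m : ℕ} {w : E (m + 1)} (hw : w ≠ 0) (D : E (m + 1) →L[ℝ] E (m + 1))
    (hp : ∀ v, ⟪w, v⟫ = 0 → D v = 0 → v = 0) :
    m ≤ Module.finrank ℝ (LinearMap.range D.toLinearMap) := by
  have i1 : Fact (Module.finrank ℝ (E (m + 1)) = m + 1) := ⟨by simp⟩
  have h1 : Module.finrank ℝ (ℝ ∙ w)ᗮ = m := Submodule.finrank_orthogonal_span_singleton hw
  let D' : (ℝ ∙ w)ᗮ →ₗ[ℝ] E (m + 1) := D.toLinearMap ∘ₗ (ℝ ∙ w)ᗮ.subtype
  have h2 : Injective D' := by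
    rw [injective_iff_map_eq_zero]
    intro v hv
    refine Subtype.ext (hp v ?_ hv)
    exact Submodule.mem_orthogonal_singleton_iff_inner_right.1 v.2
  calc m = Module.finrank ℝ (LinearMap.range D') := by
        rw [LinearMap.finrank_range_of_inj h2, h1]
    _ ≤ Module.finrank ℝ (LinearMap.range D.toLinearMap) :=
        Submodule.finrank_mono (LinearMap.range_comp_le_range _ _)

section congr

variable {m : ℕ} {M : Type} [TopologicalSpace M] [ChartedSpace (EuclideanHalfSpace (m + 1)) M]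

theorem TyA.congr {f g : M → E (m + 1)} {x : M} (hf : Iso.TyA m f x) (h : g =ᶠ[𝓝 x] f) :
    Iso.TyA m g x := by
  filter_upwards [hf, h.eventually_nhds] with y hy hy2
  have h3 : g =ᶠ[𝓝 y] f := hy2
  refine ⟨hy.1.congr_of_eventuallyEq h3, ?_⟩
  rw [h3.mfderiv_eq]
  exact hy.2

theorem TyB.congr {f g : M → E (m + 1)} {x : M} (hf : Iso.TyB m f x) (h : g =ᶠ[𝓝 x] f) :
    Iso.TyB m g x := by
  obtain ⟨k, h1, h2⟩ := hf
  refine ⟨k, ?_, ?_⟩
  · filter_upwards [h1, h] with y hy hy2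
    rw [hy2]
    exact hy
  · rw [h.self_of_nhds]
    exact h2

end congr

/-- **Homeomorphisms onto the ball which are smooth up to the boundary and near each interior point
smooth of corank at most one, or with such an inverse.** -/
theorem bdym (m : ℕ) (M N : Type) [TopologicalSpace M] [TopologicalSpace N]
    [ChartedSpace (EuclideanHalfSpace (m + 1)) M] [ChartedSpace (EuclideanHalfSpace (m + 1)) N]
    [IsManifold (𝓡∂ (m + 1)) ∞ M] [IsManifold (𝓡∂ (m + 1)) ∞ N]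
    (j : N → E (m + 1)) (r : E (m + 1) → N)
    (hjs : ContMDiff (𝓡∂ (m + 1)) (𝓡 (m + 1)) ∞ j) (hjr : range j = closedBall 0 1)
    (hrj : ∀ y, r (j y) = y)
    (hrs : ContMDiffOn (𝓡 (m + 1)) (𝓡∂ (m + 1)) ∞ r (closedBall 0 1))
    (g : M ≃ₜ N) (c : N → M) (G : E (m + 1) → E (m + 1))
    (hcL : ∀ y, y ∉ (𝓡∂ (m + 1)).interior N →
      IsLocalDiffeomorphAt (𝓡∂ (m + 1)) (𝓡∂ (m + 1)) ∞ c y)
    (hcg : ∀ y, y ∉ (𝓡∂ (m + 1)).interior N → g (c y) = y)
    (hGs : ∀ x, ‖x‖ = 1 → ∀ᶠ y in 𝓝 x, ContDiffAt ℝ ∞ G y)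
    (hG : ∀ y, y ∉ (𝓡∂ (m + 1)).interior N → ∀ᶠ z in 𝓝 y, j (g (c z)) = G (j z))
    (hc : ∀ x ∈ (𝓡∂ (m + 1)).interior M,
      Iso.TyA m (fun x => j (g x)) x ∨ Iso.TyB m (fun x => j (g x)) x) :
    Nonempty (Diffeomorph (𝓡∂ (m + 1)) (𝓡∂ (m + 1)) M N ∞) := by
  classical
  have hjle : ∀ y, ‖j y‖ ≤ 1 := fun y => by
    rw [← mem_closedBall_zero_iff, ← hjr]
    exact mem_range_self y
  have hjmem : ∀ y, j y ∈ closedBall (0 : E (m + 1)) 1 := fun y =>
    mem_closedBall_zero_iff.2 (hjle y)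
  have hjrx : ∀ x : E (m + 1), ‖x‖ ≤ 1 → j (r x) = x := by
    intro x hx
    rw [← mem_closedBall_zero_iff, ← hjr] at hx
    obtain ⟨y, rfl⟩ := hx
    rw [hrj]
  have hji : Injective j := fun a b hab => by rw [← hrj a, ← hrj b, hab]
  let J : N ≃ₜ closedBall (0 : E (m + 1)) 1 :=
    { toFun := fun y => ⟨j y, hjmem y⟩
      invFun := fun x => r x
      left_inv := fun y => hrj y
      right_inv := fun x => Subtype.ext (hjrx x (mem_closedBall_zero_iff.1 x.2))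
      continuous_toFun := hjs.continuous.subtype_mk _
      continuous_invFun := by
        have := hrs.continuousOn
        rwa [continuousOn_iff_continuous_domRestrict] at this }
  have hJ : ∀ y, ((J y : closedBall (0 : E (m + 1)) 1) : E (m + 1)) = j y := fun y => rfl
  have hJs : ∀ x, J.symm x = r x := fun x => rfl
  have hNi : ∀ y, y ∈ (𝓡∂ (m + 1)).interior N ↔ ‖j y‖ < 1 :=
    int_iff (𝓡∂ (m + 1)) inferInstance J
  have hMi : ∀ x, x ∈ (𝓡∂ (m + 1)).interior M ↔ ‖j (g x)‖ < 1 :=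
    int_iff (𝓡∂ (m + 1)) inferInstance (g.trans J)
  have hNb : ∀ y, y ∉ (𝓡∂ (m + 1)).interior N ↔ ‖j y‖ = 1 := fun y => by
    rw [hNi, not_lt]
    exact ⟨fun h => le_antisymm (hjle y) h, fun h => h.ge⟩
  have iN : CompactSpace N := J.symm.compactSpace
  have iN2 : T2Space N := J.symm.t2Space
  have iM : CompactSpace M := g.symm.compactSpace
  have iM2 : T2Space M := g.symm.t2Space
  have hrc : ContinuousOn r (closedBall 0 1) := hrs.continuousOn
  -- shells in `N`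
  have shellN : ∀ p : N → Prop, (∀ y, y ∉ (𝓡∂ (m + 1)).interior N → ∀ᶠ z in 𝓝 y, p z) →
      ∃ δ, 0 < δ ∧ δ < 1 / 2 ∧ ∀ z, 1 - δ < ‖j z‖ → p z := by
    intro p hp
    obtain ⟨δ, h1, h2, h3⟩ := shell_of_forall (n := m + 1)
      (p := fun x => x ∈ closedBall (0 : E (m + 1)) 1 → p (r x)) fun x hx => by
      have h4 : r x ∉ (𝓡∂ (m + 1)).interior N := by
        rw [hNb, hjrx x hx.le, hx]
      have h5 : Tendsto r (𝓝[closedBall 0 1] x) (𝓝 (r x)) :=
        hrc x (mem_closedBall_zero_iff.2 hx.le)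
      exact eventually_nhdsWithin_iff.1 (h5.eventually (hp _ h4))
    refine ⟨δ, h1, h2, fun z hz => ?_⟩
    have h6 := h3 (j z) ⟨hz, by linarith [hjle z]⟩ (hjmem z)
    rwa [hrj] at h6
  -- injectivity of the collar
  have hbd : IsCompact {y : N | ‖j y‖ = 1} :=
    (isClosed_eq hjs.continuous.norm continuous_const).isCompact
  have hcinj : InjOn c {y : N | ‖j y‖ = 1} := by
    intro y hy z hz hyz
    rw [← hcg y ((hNb y).2 hy), ← hcg z ((hNb z).2 hz), hyz]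
  obtain ⟨t, ht, hti⟩ := hcinj.exists_mem_nhdsSet hbd
    (fun y hy => (hcL y ((hNb y).2 hy)).contMDiffAt.continuousAt)
    (fun y hy => ld_injOn (hcL y ((hNb y).2 hy)))
  obtain ⟨δ, d1, d2, d3⟩ := shellN (fun z =>
    IsLocalDiffeomorphAt (𝓡∂ (m + 1)) (𝓡∂ (m + 1)) ∞ c z ∧ j (g (c z)) = G (j z) ∧ z ∈ t) (by
      intro y hy
      refine (ld_eventually (hcL y hy)).and ((hG y hy).and ?_)
      rw [mem_nhdsSet_iff_forall] at ht
      exact ht y ((hNb y).1 hy))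
  have hGid : ∀ x, ‖x‖ = 1 → G x = x := by
    intro x hx
    have h1 : r x ∉ (𝓡∂ (m + 1)).interior N := by rw [hNb, hjrx x hx.le, hx]
    have h2 := (d3 (r x) (by rw [hjrx x hx.le, hx]; linarith)).2.1
    rw [hcg _ h1, hjrx x hx.le] at h2
    exact h2.symm
  have hGi : InjOn G {x | 1 - δ < ‖x‖ ∧ ‖x‖ ≤ 1} := by
    rintro x ⟨hx1, hx2⟩ y ⟨hy1, hy2⟩ hxy
    have e1 := hjrx x hx2
    have e2 := hjrx y hy2
    obtain ⟨-, h2, h3⟩ := d3 (r x) (by rw [e1]; exact hx1)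
    obtain ⟨-, h5, h6⟩ := d3 (r y) (by rw [e2]; exact hy1)
    rw [e1] at h2
    rw [e2] at h5
    rw [← h2, ← h5] at hxy
    have h7 : r x = r y := hti h3 h6 (g.injective (hji hxy))
    rw [← e1, ← e2, h7]
  have hGn : ∀ x, 1 - δ < ‖x‖ → ‖x‖ < 1 → ‖G x‖ < 1 := by
    intro x h1 h2
    have e1 := hjrx x h2.le
    obtain ⟨-, h3, h4⟩ := d3 (r x) (by rw [e1]; exact h1)
    rw [e1] at h3
    rw [← h3]
    refine lt_of_le_of_ne (hjle _) fun h5 => ?_
    obtain ⟨y, hy⟩ : ∃ y, y = g (c (r x)) := ⟨_, rfl⟩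
    rw [← hy] at h5
    have h6 := hcg y ((hNb y).2 h5)
    rw [hy] at h6
    have h7 := g.injective h6
    rw [← hy] at h7
    have h8 : y = r x := hti (d3 y (by rw [h5]; linarith)).2.2 h4 h7
    rw [h8, e1] at h5
    linarith
  obtain ⟨δ₁, Ψ, l1, l2, l3, p1, p2, p3, p4, p5, p6, p7⟩ := radial δ d1 G hGs hGid hGi hGn
  obtain ⟨S, hS⟩ : ∃ S : Set (E (m + 1)), S = {x | 1 - δ₁ ≤ ‖x‖ ∧ ‖x‖ ≤ 1} := ⟨_, rfl⟩
  rw [← hS] at p6 p7
  have hSm : ∀ x, x ∈ S ↔ 1 - δ₁ ≤ ‖x‖ ∧ ‖x‖ ≤ 1 := fun x => by rw [hS]; rfl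
  have hSj : ∀ z, 1 - δ₁ ≤ ‖j z‖ → j z ∈ S := fun z hz => (hSm _).2 ⟨hz, hjle z⟩
  have hjS : ∀ x ∈ S, ∃ z, 1 - δ₁ ≤ ‖j z‖ ∧ j z = x := fun x hx =>
    ⟨r x, by rw [hjrx x ((hSm x).1 hx).2]; exact ((hSm x).1 hx).1, hjrx x ((hSm x).1 hx).2⟩
  have hcG : ∀ z, 1 - δ₁ ≤ ‖j z‖ → j (g (c z)) = G (j z) := fun z hz =>
    (d3 z (by linarith)).2.1
  have hct : ∀ z z', 1 - δ < ‖j z‖ → 1 - δ < ‖j z'‖ → c z = c z' → z = z' := fun z z' h h' e =>
    hti (d3 z h).2.2 (d3 z' h').2.2 e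
  -- images of `Ψ`
  have hΨG : ∀ z, 1 - δ₁ ≤ ‖j z‖ → ∃ z', 1 - δ₁ ≤ ‖j z'‖ ∧ Ψ (j z) = j (g (c z')) := by
    intro z hz
    have h1 : Ψ (j z) ∈ G '' S := p7 ▸ mem_image_of_mem Ψ (hSj z hz)
    obtain ⟨y, hy, hyx⟩ := h1
    obtain ⟨z', hz', rfl⟩ := hjS y hy
    exact ⟨z', hz', by rw [hcG z' hz', hyx]⟩
  have hGΨ : ∀ z, 1 - δ₁ ≤ ‖j z‖ → ∃ z', 1 - δ₁ ≤ ‖j z'‖ ∧ Ψ (j z') = j (g (c z)) := by
    intro z hz
    have h1 : G (j z) ∈ Ψ '' S := p7 ▸ mem_image_of_mem G (hSj z hz)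
    obtain ⟨y, hy, hyx⟩ := h1
    obtain ⟨z', hz', rfl⟩ := hjS y hy
    exact ⟨z', hz', by rw [hcG z hz, hyx]⟩
  have hΨle : ∀ z, 1 - δ₁ ≤ ‖j z‖ → Ψ (j z) ∈ closedBall (0 : E (m + 1)) 1 := by
    intro z hz
    obtain ⟨z', -, hz'⟩ := hΨG z hz
    rw [hz']
    exact hjmem _
  obtain ⟨K, hK1, hK2⟩ : ∃ K : M → closedBall (0 : E (m + 1)) 1,
      (∀ z, 1 - δ₁ ≤ ‖j z‖ → (K (c z) : E (m + 1)) = Ψ (j z)) ∧
      ∀ x, (¬ ∃ z, 1 - δ₁ ≤ ‖j z‖ ∧ c z = x) → K x = J (g x) := by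
    refine ⟨fun x => if h : ∃ z, 1 - δ₁ ≤ ‖j z‖ ∧ c z = x then
      ⟨Ψ (j h.choose), hΨle _ h.choose_spec.1⟩ else J (g x), ?_, ?_⟩
    · intro z hz
      have h : ∃ z', 1 - δ₁ ≤ ‖j z'‖ ∧ c z' = c z := ⟨z, hz, rfl⟩
      simp only [dif_pos h]
      have h1 := h.choose_spec
      rw [hct _ z (by linarith [h1.1]) (by linarith) h1.2]
    · intro x hx
      simp only [dif_neg hx]
  have hKi : Injective K := by
    intro a b hab
    by_cases ha : ∃ z, 1 - δ₁ ≤ ‖j z‖ ∧ c z = a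
    · obtain ⟨z, hz, rfl⟩ := ha
      by_cases hb : ∃ z, 1 - δ₁ ≤ ‖j z‖ ∧ c z = b
      · obtain ⟨z', hz', rfl⟩ := hb
        have h1 := congrArg Subtype.val hab
        rw [hK1 z hz, hK1 z' hz'] at h1
        rw [hji (p6 (hSj z hz) (hSj z' hz') h1)]
      · exfalso
        have h1 := congrArg Subtype.val hab
        rw [hK1 z hz, hK2 b hb, hJ] at h1
        obtain ⟨z', hz', h2⟩ := hΨG z hz
        rw [h2] at h1
        exact hb ⟨z', hz', g.injective (hji h1)⟩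
    · by_cases hb : ∃ z, 1 - δ₁ ≤ ‖j z‖ ∧ c z = b
      · exfalso
        obtain ⟨z, hz, rfl⟩ := hb
        have h1 := congrArg Subtype.val hab
        rw [hK1 z hz, hK2 a ha, hJ] at h1
        obtain ⟨z', hz', h2⟩ := hΨG z hz
        rw [h2] at h1
        exact ha ⟨z', hz', (g.injective (hji h1)).symm⟩
      · rw [hK2 a ha, hK2 b hb] at hab
        exact g.injective (J.injective hab)
  have hKs : Surjective K := by
    intro y
    obtain ⟨x, hx⟩ : ∃ x, J (g x) = y := ⟨g.symm (J.symm y), by simp⟩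
    by_cases h : ∃ z, 1 - δ₁ ≤ ‖j z‖ ∧ c z = x
    · obtain ⟨z, hz, rfl⟩ := h
      obtain ⟨z', hz', h2⟩ := hGΨ z hz
      refine ⟨c z', Subtype.ext ?_⟩
      rw [hK1 z' hz', h2, ← hJ, hx]
    · exact ⟨x, (hK2 x h).trans hx⟩
  -- local descriptions of `K`
  have L2 : ∀ z, 1 - δ₁ < ‖j z‖ → ∀ q : M → N, ContinuousAt q (c z) → q (c z) = z →
      (∀ᶠ y in 𝓝 (c z), c (q y) = y) → ∀ᶠ y in 𝓝 (c z), (K y : E (m + 1)) = Ψ (j (q y)) := by
    intro z hz q h1 h2 h3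
    have h4 : ∀ᶠ y in 𝓝 (c z), 1 - δ₁ < ‖j (q y)‖ := by
      have h5 : ContinuousAt (fun y => ‖j (q y)‖) (c z) :=
        (ContinuousAt.comp (g := j) (f := q) hjs.continuous.continuousAt h1).norm
      refine h5.eventually (lt_mem_nhds ?_)
      show 1 - δ₁ < ‖j (q (c z))‖
      rw [h2]
      exact hz
    filter_upwards [h3, h4] with y hy hy'
    have h5 := hK1 (q y) hy'.le
    rwa [hy] at h5
  have L1 : ∀ z, ‖j z‖ = 1 - δ₁ → ∀ᶠ y in 𝓝 (c z), K y = J (g y) := by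
    intro z hz
    have hzδ : 1 - δ < ‖j z‖ := by linarith
    obtain ⟨q, h1, h2, h3⟩ := ld_inv (d3 z hzδ).1
    have hqc : Tendsto q (𝓝 (c z)) (𝓝 z) := by
      have := h1.contMDiffAt.continuousAt
      rwa [ContinuousAt, h2] at this
    have h4 : ∀ᶠ y in 𝓝 z, Ψ (j y) = G (j y) :=
      (hjs.continuous.tendsto z).eventually (p2 (j z) hz)
    have h5 : ∀ᶠ y in 𝓝 z, 1 - δ < ‖j y‖ :=
      (hjs.continuous.norm.tendsto z).eventually (lt_mem_nhds hzδ)
    filter_upwards [h3, hqc.eventually h4, hqc.eventually h5] with y hy hy4 hy5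
    by_cases hq : 1 - δ₁ ≤ ‖j (q y)‖
    · refine Subtype.ext ?_
      have h6 := hK1 (q y) hq
      rw [hy, hy4, ← hcG (q y) hq, hy] at h6
      exact h6
    · refine hK2 y ?_
      rintro ⟨z', hz', hz''⟩
      have h6 : z' = q y := hct z' (q y) (by linarith) hy5 (by rw [hz'', hy])
      rw [h6] at hz'
      exact hq hz'
  have hcS : IsClosed (c '' {z | 1 - δ₁ ≤ ‖j z‖}) := by
    have h1 : IsCompact {z : N | 1 - δ₁ ≤ ‖j z‖} :=
      (isClosed_le continuous_const hjs.continuous.norm).isCompact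
    exact (h1.image_of_continuousOn fun z hz =>
      (d3 z (by have : 1 - δ₁ ≤ ‖j z‖ := hz; linarith)).1.contMDiffAt.continuousAt.continuousWithinAt).isClosed
  have L3 : ∀ x, (¬ ∃ z, 1 - δ₁ ≤ ‖j z‖ ∧ c z = x) → ∀ᶠ y in 𝓝 x, K y = J (g y) := by
    intro x hx
    filter_upwards [hcS.isOpen_compl.mem_nhds (show x ∈ (c '' {z | 1 - δ₁ ≤ ‖j z‖})ᶜ from
      fun ⟨z, hz, hz'⟩ => hx ⟨z, hz, hz'⟩)] with y hy
    exact hK2 y fun ⟨z, hz, hz'⟩ => hy ⟨z, hz, hz'⟩
  have hcases : ∀ x, (∀ᶠ y in 𝓝 x, K y = J (g y)) ∨ ∃ z, 1 - δ₁ < ‖j z‖ ∧ c z = x := by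
    intro x
    by_cases h : ∃ z, 1 - δ₁ ≤ ‖j z‖ ∧ c z = x
    · obtain ⟨z, hz, rfl⟩ := h
      rcases hz.eq_or_lt with h1 | h1
      · exact Or.inl (L1 z h1.symm)
      · exact Or.inr ⟨z, h1, rfl⟩
    · exact Or.inl (L3 x h)
  have hΨs : ∀ z, 1 - δ₁ ≤ ‖j z‖ → ∀ᶠ y in 𝓝 (j z), ContDiffAt ℝ ∞ Ψ y := fun z hz =>
    p1 (j z) hz (hjle z)
  have hKc : Continuous K := by
    rw [continuous_iff_continuousAt]
    intro x
    rcases hcases x with h | ⟨z, hz, rfl⟩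
    · exact (J.continuous.comp g.continuous).continuousAt.congr (h.mono fun y hy => hy.symm)
    · obtain ⟨q, h1, h2, h3⟩ := ld_inv (d3 z (by linarith)).1
      have h4 := L2 z hz q h1.contMDiffAt.continuousAt h2 h3
      rw [ContinuousAt, tendsto_subtype_rng]
      have h5 : ContinuousAt (fun y => Ψ (j (q y))) (c z) := by
        refine ContinuousAt.comp (g := Ψ) (f := fun y => j (q y)) ?_
          (ContinuousAt.comp (g := j) (f := q) hjs.continuous.continuousAt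
            h1.contMDiffAt.continuousAt)
        rw [h2]
        exact (hΨs z hz.le).self_of_nhds.continuousAt
      have h6 : Tendsto (fun y => (K y : E (m + 1))) (𝓝 (c z)) (𝓝 (Ψ (j (q (c z))))) :=
        h5.tendsto.congr' (h4.mono fun y hy => hy.symm)
      rwa [h2, ← hK1 z hz.le] at h6
  let Ke : M ≃ₜ closedBall (0 : E (m + 1)) 1 :=
    Continuous.homeoOfEquivCompactToT2 (f := Equiv.ofBijective K ⟨hKi, hKs⟩) hKc
  have hKe : ∀ x, Ke x = K x := fun x => rfl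
  have hjL : ∀ y ∈ (𝓡∂ (m + 1)).interior N,
      IsLocalDiffeomorphAt (𝓡∂ (m + 1)) (𝓡 (m + 1)) ∞ (fun y => (J y : E (m + 1))) y := by
    intro y hy
    refine ⟨{ toFun := j, invFun := r, source := {y | ‖j y‖ < 1}, target := ball 0 1,
              map_source' := fun y hy => mem_ball_zero_iff.2 hy,
              map_target' := fun x hx => ?_,
              left_inv' := fun y _ => hrj y,
              right_inv' := fun x hx => hjrx x (mem_ball_zero_iff.1 hx).le,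
              open_source := isOpen_lt hjs.continuous.norm continuous_const,
              open_target := isOpen_ball,
              contMDiffOn_toFun := hjs.contMDiffOn,
              contMDiffOn_invFun := hrs.mono ball_subset_closedBall }, (hNi y).1 hy,
      fun _ _ => rfl⟩
    show ‖j (r x)‖ < 1
    rw [hjrx x (mem_ball_zero_iff.1 hx).le]
    exact mem_ball_zero_iff.1 hx
  have hbd : ∀ x, x ∉ (𝓡∂ (m + 1)).interior M → IsLocalDiffeomorphAt (𝓡∂ (m + 1)) (𝓡∂ (m + 1)) ∞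
      (fun x => J.symm (Ke x)) x := by
    intro x hx
    show IsLocalDiffeomorphAt (𝓡∂ (m + 1)) (𝓡∂ (m + 1)) ∞ (fun x => J.symm (K x)) x
    have hx1 : ‖j (g x)‖ = 1 := by
      rw [hMi, not_lt] at hx
      exact le_antisymm (hjle _) hx
    obtain ⟨z, hz⟩ : ∃ z, z = g x := ⟨_, rfl⟩
    rw [← hz] at hx1
    have hcz : c z = x := g.injective ((hcg z ((hNb z).2 hx1)).trans hz)
    subst hcz
    have hzδ : 1 - δ < ‖j z‖ := by linarith
    obtain ⟨q, h1, h2, h3⟩ := ld_inv (d3 z hzδ).1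
    have h4 := L2 z (by linarith) q h1.contMDiffAt.continuousAt h2 h3
    obtain ⟨Φ, hΦ, hΦe⟩ := p4 (j z) hx1
    obtain ⟨V, hV⟩ : ∃ V : Set N, V = {y | 1 - δ₁ < ‖j y‖ ∧ j y ∈ Φ.source} := ⟨_, rfl⟩
    have hVm : ∀ y, y ∈ V ↔ 1 - δ₁ < ‖j y‖ ∧ j y ∈ Φ.source := fun y => by rw [hV]; rfl
    have hVo : IsOpen V := by
      rw [hV]
      exact (isOpen_lt continuous_const hjs.continuous.norm).inter
        (Φ.open_source.preimage hjs.continuous)
    have hka : ∀ y ∈ V, r (Ψ (j y)) = J.symm (K (c y)) := by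
      intro y hy
      rw [hJs, hK1 y ((hVm y).1 hy).1.le]
    have hκo : IsOpen ((fun y => r (Ψ (j y))) '' V) := by
      have h5 : (fun y => r (Ψ (j y))) '' V = J.symm '' (Ke '' (c '' V)) := by
        rw [image_image, image_image]
        exact image_congr fun y hy => hka y hy
      rw [h5]
      refine J.symm.isOpenMap _ (Ke.isOpenMap _ ?_)
      exact ld_isOpen_image hVo fun y hy => (d3 y (by linarith [((hVm y).1 hy).1])).1
    have hΦΨ : ∀ y ∈ V, Φ (j y) = Ψ (j y) := fun y hy => (hΦe ((hVm y).1 hy).2).symm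
    have hκ : IsLocalDiffeomorphAt (𝓡∂ (m + 1)) (𝓡∂ (m + 1)) ∞ (fun y => r (Ψ (j y))) z := by
      have hjκ : ∀ y ∈ V, j (r (Ψ (j y))) = Ψ (j y) := fun y hy =>
        hjrx _ (mem_closedBall_zero_iff.1 (hΨle y ((hVm y).1 hy).1.le))
      have hinv : ∀ y ∈ V, Φ.symm (Ψ (j y)) = j y := by
        intro y hy
        rw [← hΦΨ y hy]
        exact Φ.left_inv ((hVm y).1 hy).2
      refine ⟨{ toFun := fun y => r (Ψ (j y)), invFun := fun y => r (Φ.symm (j y)),
                source := V, target := (fun y => r (Ψ (j y))) '' V,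
                map_source' := fun y hy => mem_image_of_mem _ hy,
                map_target' := ?_, left_inv' := ?_, right_inv' := ?_,
                open_source := hVo, open_target := hκo,
                contMDiffOn_toFun := ?_, contMDiffOn_invFun := ?_ }, ?_, fun _ _ => rfl⟩
      · rintro _ ⟨y, hy, rfl⟩
        show r (Φ.symm (j (r (Ψ (j y))))) ∈ V
        rw [hjκ y hy, hinv y hy, hrj]
        exact hy
      · intro y hy
        show r (Φ.symm (j (r (Ψ (j y))))) = y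
        rw [hjκ y hy, hinv y hy, hrj]
      · rintro _ ⟨y, hy, rfl⟩
        show r (Ψ (j (r (Φ.symm (j (r (Ψ (j y)))))))) = r (Ψ (j y))
        rw [hjκ y hy, hinv y hy, hrj]
      · refine ContMDiffOn.comp (g := r) (f := fun y => Ψ (j y)) hrs ?_ ?_
        · intro y hy
          have h5 : ContMDiffAt (𝓡 (m + 1)) (𝓡 (m + 1)) ∞ Ψ (j y) :=
            (hΨs y ((hVm y).1 hy).1.le).self_of_nhds.contMDiffAt
          exact (h5.comp y (hjs y)).contMDiffWithinAt
        · intro y hy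
          exact hΨle y ((hVm y).1 hy).1.le
      · refine ContMDiffOn.comp (g := r) (f := fun y => Φ.symm (j y)) hrs ?_ ?_
        · rintro _ ⟨y, hy, rfl⟩
          have h5 : j (r (Ψ (j y))) ∈ Φ.target := by
            rw [hjκ y hy, ← hΦΨ y hy]
            exact Φ.map_source ((hVm y).1 hy).2
          have h6 : ContMDiffAt (𝓡 (m + 1)) (𝓡 (m + 1)) ∞ Φ.symm (j (r (Ψ (j y)))) :=
            (Φ.contMDiffOn_invFun _ h5).contMDiffAt (Φ.open_target.mem_nhds h5)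
          exact (h6.comp _ (hjs _)).contMDiffWithinAt
        · rintro _ ⟨y, hy, rfl⟩
          show Φ.symm (j (r (Ψ (j y)))) ∈ closedBall (0 : E (m + 1)) 1
          rw [hjκ y hy, hinv y hy]
          exact hjmem y
      · exact (hVm z).2 ⟨by linarith, hΦ⟩
    have h5 : IsLocalDiffeomorphAt (𝓡∂ (m + 1)) (𝓡∂ (m + 1)) ∞
        ((fun y => r (Ψ (j y))) ∘ q) (c z) := by
      refine IsLocalDiffeomorphAt.comp (𝓡∂ (m + 1)) N h1 ?_
      rw [h2]
      exact hκ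
    refine ld_congr h5 ?_
    filter_upwards [h4] with y hy
    rw [hJs, hy]
    rfl
  have hty : ∀ x ∈ (𝓡∂ (m + 1)).interior M, Iso.TyA m (fun x => (Ke x : E (m + 1))) x ∨
      Iso.TyB m (fun x => (Ke x : E (m + 1))) x := by
    intro x hx
    rcases hcases x with h | ⟨z, hz, rfl⟩
    · have he : (fun x => (Ke x : E (m + 1))) =ᶠ[𝓝 x] fun y => j (g y) := by
        filter_upwards [h] with y hy
        rw [hKe, hy, hJ]
      exact (hc x hx).imp (fun hA => TyA.congr hA he) (fun hB => TyB.congr hB he)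
    · left
      have hz1 : ‖j z‖ < 1 := by
        refine lt_of_le_of_ne (hjle z) fun h => ?_
        rw [hMi, hcg z ((hNb z).2 h), h] at hx
        exact lt_irrefl _ hx
      obtain ⟨q, h1, h2, h3⟩ := ld_inv (d3 z (by linarith)).1
      have h4 := L2 z hz q h1.contMDiffAt.continuousAt h2 h3
      have h5 : IsLocalDiffeomorphAt (𝓡∂ (m + 1)) (𝓡 (m + 1)) ∞ (fun y => j (q y)) (c z) := by
        refine IsLocalDiffeomorphAt.comp (𝓡 (m + 1)) (E (m + 1)) h1 ?_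
        rw [h2]
        exact hjL z ((hNi z).2 hz1)
      have hcont : Tendsto (fun y => j (q y)) (𝓝 (c z)) (𝓝 (j z)) := by
        have := h5.contMDiffAt.continuousAt
        rwa [ContinuousAt, h2] at this
      have hΨr : ∀ᶠ w in 𝓝 (j z), ContDiffAt ℝ ∞ Ψ w ∧ 1 - δ₁ < ‖w‖ ∧ ‖w‖ < 1 := by
        have g1 : ∀ᶠ w : E (m + 1) in 𝓝 (j z), 1 - δ₁ < ‖w‖ :=
          (continuous_norm.tendsto (j z)).eventually (lt_mem_nhds hz)
        have g2 : ∀ᶠ w : E (m + 1) in 𝓝 (j z), ‖w‖ < 1 :=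
          (continuous_norm.tendsto (j z)).eventually (gt_mem_nhds hz1)
        filter_upwards [hΨs z hz.le, g1, g2] with w a b c
        exact ⟨a, b, c⟩
      have he : (fun x => (Ke x : E (m + 1))) =ᶠ[𝓝 (c z)] fun y => Ψ (j (q y)) := h4
      refine TyA.congr ?_ he
      filter_upwards [hcont.eventually hΨr, ld_eventually h5] with y hy hy'
      have h6 : ContMDiffAt (𝓡 (m + 1)) (𝓡 (m + 1)) ∞ Ψ (j (q y)) := hy.1.contMDiffAt
      refine ⟨ContMDiffAt.comp (g := Ψ) (f := fun y => j (q y)) y h6 hy'.contMDiffAt, ?_⟩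
      have h7 : mfderiv (𝓡∂ (m + 1)) (𝓡 (m + 1)) (Ψ ∘ fun y => j (q y)) y =
          (mfderiv (𝓡 (m + 1)) (𝓡 (m + 1)) Ψ (j (q y))).comp
            (mfderiv (𝓡∂ (m + 1)) (𝓡 (m + 1)) (fun y => j (q y)) y) :=
        mfderiv_comp y (h6.mdifferentiableAt (by simp)) (hy'.mdifferentiableAt (by simp))
      have h8 : (fun y => Ψ (j (q y))) = Ψ ∘ fun y => j (q y) := rfl
      have h9 : Surjective (mfderiv (𝓡∂ (m + 1)) (𝓡 (m + 1)) (fun y => j (q y)) y) :=
        (hy'.mfderivToContinuousLinearEquiv (by simp)).surjective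
      rw [h8, h7, mfderiv_eq_fderiv]
      let D1 : E (m + 1) →L[ℝ] E (m + 1) :=
        mfderiv (𝓡∂ (m + 1)) (𝓡 (m + 1)) (fun y => j (q y)) y
      let D2 : E (m + 1) →L[ℝ] E (m + 1) := fderiv ℝ Ψ (j (q y))
      have h9' : Surjective D1.toLinearMap := h9
      have hw0 : j (q y) ≠ 0 := by
        intro h
        have := hy.2.1
        rw [h, norm_zero] at this
        linarith
      have h10 : m ≤ Module.finrank ℝ (LinearMap.range D2.toLinearMap) :=
        rank_of_perp hw0 D2 (p5 (j (q y)) hy.2.1.le hy.2.2.le)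
      show m ≤ Module.finrank ℝ (LinearMap.range (D2.toLinearMap ∘ₗ D1.toLinearMap))
      rw [LinearMap.range_comp_of_range_eq_top _ (LinearMap.range_eq_top.2 h9')]
      exact h10
  obtain ⟨G', -, -, h3⟩ := Iso.bdm m M N Ke J hjL ∅ isClosed_empty (fun x _ hx => hbd x hx)
    (fun x _ hx => hty x hx) 1 one_pos
  have hl : IsLocalDiffeomorph (𝓡∂ (m + 1)) (𝓡∂ (m + 1)) ∞ (fun x => J.symm (G' x)) :=
    fun x => h3 x (notMem_empty x)
  exact ⟨hl.diffeomorphOfBijective (J.symm.bijective.comp G'.bijective)⟩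

end Pool.Agent.V1127.Sf
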