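import Pool.Agent.V1127.Sf.Basic

/-!
# Making a map transversally nondegenerate along the unit sphere
-/

set_option autoImplicit false

open Set Filter Topology Metric Function
open scoped Manifold ContDiff RealInnerProductSpace

noncomputable section

namespace Pool.Agent.V1127.Sf

open Pool.Agent.Y522

variable {n : ℕ}

/-- the direction of `G x` -/
def uv (G : E n → E n) (x : E n) : E n := ‖G x‖⁻¹ • G x

/-- the map with the direction of `G` and the norm of the argument -/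
def Th (G : E n → E n) (x : E n) : E n := ‖x‖ • uv G x

theorem norm_uv {G : E n → E n} {x : E n} (h0 : G x ≠ 0) : ‖uv G x‖ = 1 := by
  rw [uv, norm_smul, norm_inv, norm_norm, inv_mul_cancel₀ (norm_ne_zero_iff.2 h0)]

theorem norm_Th {G : E n → E n} {x : E n} (h0 : G x ≠ 0) : ‖Th G x‖ = ‖x‖ := by
  rw [Th, norm_smul, norm_norm, norm_uv h0, mul_one]

theorem uv_smooth {G : E n → E n} {x : E n} (hs : ContDiffAt ℝ ∞ G x) (h0 : G x ≠ 0) :
    ContDiffAt ℝ ∞ (uv G) x :=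
  ((hs.norm ℝ h0).inv (norm_ne_zero_iff.2 h0)).smul hs

theorem Th_smooth {G : E n → E n} {x : E n} (hs : ContDiffAt ℝ ∞ G x) (h0 : G x ≠ 0)
    (hx : x ≠ 0) : ContDiffAt ℝ ∞ (Th G) x :=
  (contDiffAt_id.norm ℝ hx).smul (uv_smooth hs h0)

/-- a smooth cutoff with a Lipschitz bound -/
theorem exists_bump {c : ℝ} (hc : 0 < c) : ∃ (b : ℝ → ℝ) (ε : ℝ), 0 < ε ∧ ε ≤ 1 / 4 ∧
    ContDiff ℝ ∞ b ∧ (∀ r, 0 ≤ b r) ∧ (∀ r, b r ≤ 1) ∧ (∀ r, c ≤ |r| → b r = 0) ∧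
    (∀ r, |r| ≤ c / 2 → b r = 1) ∧ ∀ r r', r < r' → ε * |b r - b r'| < r' - r := by
  let B : ContDiffBump (0 : ℝ) := ⟨c / 2, c, by linarith, by linarith⟩
  have h1 : ContDiff ℝ ∞ (B : ℝ → ℝ) := B.contDiff
  obtain ⟨C, hC⟩ := ContDiff.lipschitzWith_of_hasCompactSupport B.hasCompactSupport h1 (by simp)
  have hC0 : (0 : ℝ) ≤ C := C.2
  refine ⟨B, min (1 / 4) (1 / (C + 1)), by positivity, min_le_left _ _, h1, fun r => B.nonneg,
    fun r => B.le_one, fun r hr => ?_, fun r hr => ?_, fun r r' hrr => ?_⟩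
  · refine B.zero_of_le_dist ?_
    rw [Real.dist_eq, sub_zero]
    exact hr
  · refine B.one_of_mem_closedBall ?_
    rw [mem_closedBall, Real.dist_eq, sub_zero]
    exact hr
  · have h2 : |B r - B r'| ≤ C * (r' - r) := by
      have := hC.dist_le_mul r r'
      rw [Real.dist_eq, Real.dist_eq, abs_of_neg (sub_neg.2 hrr)] at this
      linarith
    have h3 : min (1 / 4) (1 / ((C : ℝ) + 1)) ≤ 1 / (C + 1) := min_le_right _ _
    have h4 : 0 < r' - r := by linarith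
    calc min (1 / 4) (1 / ((C : ℝ) + 1)) * |B r - B r'|
        ≤ 1 / ((C : ℝ) + 1) * (C * (r' - r)) :=
          mul_le_mul h3 h2 (abs_nonneg _) (by positivity)
      _ = ((C : ℝ) / (C + 1)) * (r' - r) := by ring
      _ < 1 * (r' - r) := by
          refine mul_lt_mul_of_pos_right ?_ h4
          rw [div_lt_one (by positivity)]
          linarith
      _ = r' - r := one_mul _

theorem radial (δ : ℝ) (hδ : 0 < δ) (G : E n → E n)
    (hs : ∀ x, ‖x‖ = 1 → ∀ᶠ y in 𝓝 x, ContDiffAt ℝ ∞ G y) (hid : ∀ x, ‖x‖ = 1 → G x = x)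
    (hi : InjOn G {x | 1 - δ < ‖x‖ ∧ ‖x‖ ≤ 1})
    (hn : ∀ x, 1 - δ < ‖x‖ → ‖x‖ < 1 → ‖G x‖ < 1) :
    ∃ (δ₁ : ℝ) (Ψ : E n → E n), 0 < δ₁ ∧ δ₁ < δ ∧ δ₁ < 1 / 2 ∧
      (∀ x, 1 - δ₁ ≤ ‖x‖ → ‖x‖ ≤ 1 → ∀ᶠ y in 𝓝 x, ContDiffAt ℝ ∞ Ψ y) ∧
      (∀ x, ‖x‖ = 1 - δ₁ → ∀ᶠ y in 𝓝 x, Ψ y = G y) ∧ (∀ x, ‖x‖ = 1 → Ψ x = x) ∧
      (∀ x, ‖x‖ = 1 → LD n Ψ x) ∧
      (∀ x, 1 - δ₁ ≤ ‖x‖ → ‖x‖ ≤ 1 → ∀ v, ⟪x, v⟫ = 0 → fderiv ℝ Ψ x v = 0 → v = 0) ∧
      InjOn Ψ {x | 1 - δ₁ ≤ ‖x‖ ∧ ‖x‖ ≤ 1} ∧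
      Ψ '' {x | 1 - δ₁ ≤ ‖x‖ ∧ ‖x‖ ≤ 1} = G '' {x | 1 - δ₁ ≤ ‖x‖ ∧ ‖x‖ ≤ 1} := by
  classical
  have ne_of : ∀ x : E n, ‖x‖ = 1 → x ≠ 0 := by
    intro x hx h
    rw [h, norm_zero] at hx
    exact zero_ne_one hx
  have hΘid : ∀ x, ‖x‖ = 1 → Th G x = x := by
    intro x hx
    rw [Th, uv, hid x hx, hx, inv_one, one_smul, one_smul]
  have hGc : ∀ x, ‖x‖ = 1 → ∀ᶠ y in 𝓝 x, 1 / 2 < ‖G y‖ := by
    intro x hx
    have h1 : ContinuousAt (fun y => ‖G y‖) x := (hs x hx).self_of_nhds.continuousAt.norm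
    refine h1.eventually (lt_mem_nhds ?_)
    show 1 / 2 < ‖G x‖
    rw [hid x hx, hx]
    norm_num
  have hne : ∀ y, 1 / 2 < ‖G y‖ → G y ≠ 0 := by
    intro y hy h
    rw [h, norm_zero] at hy
    linarith
  have hΘs : ∀ x, ‖x‖ = 1 → ∀ᶠ y in 𝓝 x, ContDiffAt ℝ ∞ (Th G) y := by
    intro x hx
    filter_upwards [hs x hx, hGc x hx, (isOpen_ne.mem_nhds (ne_of x hx))] with y h1 h2 h3
    exact Th_smooth h1 (hne y h2) h3
  have hsx : ∀ x : E n, Tendsto (fun s : ℝ => s • x) (𝓝[<] 1) (𝓝 x) := by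
    intro x
    have h1 : Tendsto (fun s : ℝ => s • x) (𝓝 1) (𝓝 ((1 : ℝ) • x)) :=
      (continuous_id.smul continuous_const).tendsto 1
    rw [one_smul] at h1
    exact h1.mono_left nhdsWithin_le_nhds
  have hpos1 : ∀ᶠ s in 𝓝[<] (1 : ℝ), 0 < s :=
    nhdsWithin_le_nhds (lt_mem_nhds one_pos)
  have hΘL : ∀ x, ‖x‖ = 1 → LD n (Th G) x := by
    intro x hx
    refine LD_sphere hx (hΘs x hx) hΘid one_pos ?_
    filter_upwards [(hsx x).eventually (hGc x hx), hpos1] with s h1 h2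
    rw [norm_Th (hne _ h1), norm_smul, hx, mul_one, Real.norm_of_nonneg h2.le]
    linarith
  obtain ⟨δ₂, d1, d2, d3⟩ := shell_of_forall (n := n) (p := fun y => ContDiffAt ℝ ∞ G y ∧
    1 / 2 < ‖G y‖ ∧ LD n (Th G) y) fun x hx => (hs x hx).and ((hGc x hx).and (hΘL x hx).eventually)
  have hΘsph : InjOn (Th G) (sphere (0 : E n) 1) := by
    intro x hx y hy hxy
    rw [hΘid x (mem_sphere_zero_iff_norm.1 hx), hΘid y (mem_sphere_zero_iff_norm.1 hy)] at hxy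
    exact hxy
  obtain ⟨t, ht, hti⟩ := hΘsph.exists_mem_nhdsSet (isCompact_sphere 0 1)
    (fun x hx => (hΘL x (mem_sphere_zero_iff_norm.1 hx)).continuousAt)
    (fun x hx => (hΘL x (mem_sphere_zero_iff_norm.1 hx)).eventually_injOn)
  obtain ⟨δ₃, e1, e2, e3⟩ := shell ht
  obtain ⟨δ₄, f1, f2, f3, f4⟩ : ∃ δ₄, 0 < δ₄ ∧ δ₄ ≤ δ₂ ∧ δ₄ ≤ δ₃ ∧ δ₄ ≤ δ :=
    ⟨min (min δ₂ δ₃) δ, by positivity, (min_le_left _ _).trans (min_le_left _ _),
      (min_le_left _ _).trans (min_le_right _ _), min_le_right _ _⟩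
  have g1 : ∀ y ∈ A n δ₄, ContDiffAt ℝ ∞ G y := fun y hy => (d3 y (A_mono f2 hy)).1
  have g2 : ∀ y ∈ A n δ₄, 1 / 2 < ‖G y‖ := fun y hy => (d3 y (A_mono f2 hy)).2.1
  have g3 : ∀ y ∈ A n δ₄, LD n (Th G) y := fun y hy => (d3 y (A_mono f2 hy)).2.2
  have g4 : InjOn (Th G) (A n δ₄) := hti.mono ((A_mono f3).trans e3)
  have g5 : ∀ y ∈ A n δ₄, G y ≠ 0 := fun y hy => hne y (g2 y hy)
  have g6 : ∀ y ∈ A n δ₄, y ≠ 0 := by
    intro y hy h
    have := hy.1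
    rw [h, norm_zero] at this
    linarith
  have hsub4 : sphere (0 : E n) 1 ⊆ A n δ₄ := by
    intro x hx
    have hx1 := mem_sphere_zero_iff_norm.1 hx
    exact ⟨by rw [hx1]; linarith, by rw [hx1]; linarith⟩
  have himo : IsOpen (Th G '' A n δ₄) := isOpen_image_of_LD (isOpen_A δ₄) g3
  obtain ⟨δ₅', k1, k2, k3⟩ := shell (n := n) (U := Th G '' A n δ₄) (by
    rw [mem_nhdsSet_iff_forall]
    intro x hx
    refine himo.mem_nhds ⟨x, hsub4 hx, hΘid x (mem_sphere_zero_iff_norm.1 hx)⟩)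
  obtain ⟨δ₅, k4, k5, k6⟩ : ∃ δ₅, 0 < δ₅ ∧ δ₅ ≤ δ₅' ∧ δ₅ ≤ δ₄ :=
    ⟨min δ₅' δ₄, by positivity, min_le_left _ _, min_le_right _ _⟩
  have k7 : A n δ₅ ⊆ Th G '' A n δ₄ := (A_mono k5).trans k3
  have k8 : A n δ₅ ⊆ A n δ₄ := A_mono k6
  let θ : E n → E n := invFunOn (Th G) (A n δ₄)
  have hθ1 : ∀ y ∈ A n δ₄, θ (Th G y) = y := fun y hy => g4.leftInvOn_invFunOn hy
  have hθ2 : ∀ z ∈ A n δ₅, θ z ∈ A n δ₄ ∧ Th G (θ z) = z := by
    intro z hz
    obtain ⟨y, hy, rfl⟩ := k7 hz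
    rw [hθ1 y hy]
    exact ⟨hy, rfl⟩
  have hθn : ∀ z ∈ A n δ₅, ‖θ z‖ = ‖z‖ := by
    intro z hz
    rw [← norm_Th (g5 _ (hθ2 z hz).1), (hθ2 z hz).2]
  have hθc : ∀ z ∈ A n δ₅, ContinuousAt θ z := by
    intro z hz
    have h1 := LD.inverse (isOpen_A δ₄) g3 hθ1 (hθ2 z hz).1
    rw [(hθ2 z hz).2] at h1
    exact h1.continuousAt
  -- rays
  have hray : ∀ (q : E n) (s : ℝ), ‖q‖ = 1 → 1 - δ₅ < s → s < 1 + δ₅ → s • q ∈ A n δ₅ := by
    intro q s hq h1 h2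
    have h3 : ‖s • q‖ = s := by
      rw [norm_smul, hq, mul_one, Real.norm_of_nonneg (by linarith)]
    exact ⟨by rw [h3]; exact h1, by rw [h3]; exact h2⟩
  have hrn : ∀ (q : E n) (s : ℝ), ‖q‖ = 1 → 1 - δ₅ < s → s < 1 + δ₅ → ‖θ (s • q)‖ = s := by
    intro q s hq h1 h2
    rw [hθn _ (hray q s hq h1 h2), norm_smul, hq, mul_one, Real.norm_of_nonneg (by linarith)]
  obtain ⟨γ, hγ⟩ : ∃ γ : E n → ℝ → ℝ, γ = fun q s => ‖G (θ (s • q))‖ := ⟨_, rfl⟩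
  have hγe : ∀ q s, γ q s = ‖G (θ (s • q))‖ := fun q s => by rw [hγ]
  have hru : ∀ (q : E n) (s : ℝ), ‖q‖ = 1 → 1 - δ₅ < s → s < 1 + δ₅ → uv G (θ (s • q)) = q := by
    intro q s hq h1 h2
    have h3 := (hθ2 _ (hray q s hq h1 h2)).2
    rw [Th, hrn q s hq h1 h2] at h3
    have h4 : s ≠ 0 := by linarith
    exact smul_right_injective _ h4 h3
  have hG : ∀ y ∈ A n δ₄, G y = ‖G y‖ • uv G y := by
    intro y hy
    rw [uv, smul_smul, mul_inv_cancel₀ (norm_ne_zero_iff.2 (g5 y hy)), one_smul]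
  have hrG : ∀ (q : E n) (s : ℝ), ‖q‖ = 1 → 1 - δ₅ < s → s < 1 + δ₅ →
      G (θ (s • q)) = γ q s • q := by
    intro q s hq h1 h2
    rw [hG _ (hθ2 _ (hray q s hq h1 h2)).1, hru q s hq h1 h2, hγe]
  have hγ1 : ∀ q, ‖q‖ = 1 → γ q 1 = 1 := by
    intro q hq
    have h1 : θ q = q := by
      have h2 := hθ1 q (hsub4 (mem_sphere_zero_iff_norm.2 hq))
      rwa [hΘid q hq] at h2
    rw [hγe, one_smul, h1, hid q hq, hq]
  have hγlt : ∀ q s, ‖q‖ = 1 → 1 - δ₅ < s → s < 1 → γ q s < 1 := by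
    intro q s hq h1 h2
    rw [hγe]
    have h3 := hrn q s hq h1 (by linarith)
    exact hn _ (by rw [h3]; linarith) (by rw [h3]; exact h2)
  have hγc : ∀ q, ‖q‖ = 1 → ContinuousOn (γ q) (Ioo (1 - δ₅) (1 + δ₅)) := by
    intro q hq s hs'
    have h1 : ContinuousAt (fun s : ℝ => s • q) s := (continuous_id.smul continuous_const).continuousAt
    have h2 : ContinuousAt (fun s : ℝ => θ (s • q)) s :=
      ContinuousAt.comp (f := fun s : ℝ => s • q) (hθc _ (hray q s hq hs'.1 hs'.2)) h1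
    have h3 : ContinuousAt (fun s : ℝ => G (θ (s • q))) s :=
      ContinuousAt.comp (g := G) (f := fun s : ℝ => θ (s • q))
        (g1 _ (hθ2 _ (hray q s hq hs'.1 hs'.2)).1).continuousAt h2
    rw [hγ]
    exact h3.norm.continuousWithinAt
  have hγi : ∀ q, ‖q‖ = 1 → ∀ s s', 1 - δ₅ < s → s ≤ 1 → 1 - δ₅ < s' → s' ≤ 1 →
      γ q s = γ q s' → s = s' := by
    intro q hq s s' h1 h2 h3 h4 h5
    have h6 := hrG q s hq h1 (by linarith)
    have h7 := hrG q s' hq h3 (by linarith)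
    have n1 := hrn q s hq h1 (by linarith)
    have n2 := hrn q s' hq h3 (by linarith)
    have h8 : θ (s • q) = θ (s' • q) := by
      refine hi ⟨by rw [n1]; linarith, by rw [n1]; exact h2⟩
        ⟨by rw [n2]; linarith, by rw [n2]; exact h4⟩ ?_
      rw [h6, h7, h5]
    rw [← n1, ← n2, h8]
  have hγm : ∀ q, ‖q‖ = 1 → ∀ s s', 1 - δ₅ < s → s < s' → s' ≤ 1 → γ q s < γ q s' := by
    intro q hq s s' h1 h2 h3
    have hsub : Icc s 1 ⊆ Ioo (1 - δ₅) (1 + δ₅) := fun r hr => ⟨by linarith [hr.1], by linarith [hr.2]⟩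
    have h4 : StrictMonoOn (γ q) (Icc s 1) := by
      refine ContinuousOn.strictMonoOn_of_injOn_Icc (by linarith) ?_ ((hγc q hq).mono hsub) ?_
      · rw [hγ1 q hq]
        exact (hγlt q s hq h1 (by linarith)).le
      · intro r hr r' hr' hrr
        exact hγi q hq r r' (by linarith [hr.1]) hr.2 (by linarith [hr'.1]) hr'.2 hrr
    exact h4 ⟨le_rfl, by linarith⟩ ⟨h2.le, h3⟩ h2
  -- the inner sphere
  obtain ⟨δ₁, l1, l2, l3⟩ : ∃ δ₁, 0 < δ₁ ∧ δ₁ < δ₅ ∧ δ₁ < 1 / 2 :=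
    ⟨δ₅ / 2, by linarith, by linarith, by linarith⟩
  have hS5 : ∀ x : E n, 1 - δ₁ ≤ ‖x‖ → ‖x‖ ≤ 1 → x ∈ A n δ₅ := fun x h1 h2 =>
    ⟨by linarith, by linarith⟩
  have hS4 : ∀ x : E n, 1 - δ₁ ≤ ‖x‖ → ‖x‖ ≤ 1 → x ∈ A n δ₄ := fun x h1 h2 => k8 (hS5 x h1 h2)
  obtain ⟨c', hc0, hc'⟩ := (isCompact_sphere (0 : E n) (1 - δ₁)).exists_forall_le'
    (f := fun x => 1 - ‖G x‖) (a := 0) (by
      intro x hx
      have h1 := mem_sphere_zero_iff_norm.1 hx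
      have h2 : x ∈ A n δ₄ := hS4 x (by rw [h1]) (by rw [h1]; linarith)
      exact (continuousAt_const.sub (g1 x h2).continuousAt.norm).continuousWithinAt) (by
      intro x hx
      have h1 := mem_sphere_zero_iff_norm.1 hx
      have h2 := hn x (by rw [h1]; linarith) (by rw [h1]; linarith)
      show 0 < 1 - ‖G x‖
      linarith)
  obtain ⟨c, hc1, hc⟩ : ∃ c, 0 < c ∧ ∀ x : E n, ‖x‖ = 1 - δ₁ → c < 1 - ‖G x‖ :=
    ⟨c' / 2, by linarith, fun x hx => lt_of_lt_of_le (by linarith)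
      (hc' x (mem_sphere_zero_iff_norm.2 hx))⟩
  obtain ⟨b, ε, b1, b2, b3, b4, b5, b6, b7, b8⟩ := exists_bump hc1
  obtain ⟨Φ, hΦ⟩ : ∃ Φ : ℝ → ℝ → ℝ, Φ = fun a t => a - ε * t * b (1 - a) := ⟨_, rfl⟩
  have hΦe : ∀ a t, Φ a t = a - ε * t * b (1 - a) := fun a t => by rw [hΦ]
  have M1 : ∀ a a' t, a < a' → 0 ≤ t → t ≤ 1 → Φ a t < Φ a' t := by
    intro a a' t h1 h2 h3
    rw [hΦe, hΦe]
    have h4 := b8 (1 - a') (1 - a) (by linarith)
    have h5 : ε * t * b (1 - a') - ε * t * b (1 - a) ≤ ε * |b (1 - a') - b (1 - a)| := by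
      have h6 : ε * t * b (1 - a') - ε * t * b (1 - a) = ε * (t * (b (1 - a') - b (1 - a))) := by
        ring
      rw [h6]
      refine mul_le_mul_of_nonneg_left ?_ b1.le
      calc t * (b (1 - a') - b (1 - a)) ≤ t * |b (1 - a') - b (1 - a)| :=
            mul_le_mul_of_nonneg_left (le_abs_self _) h2
        _ ≤ 1 * |b (1 - a') - b (1 - a)| := mul_le_mul_of_nonneg_right h3 (abs_nonneg _)
        _ = |b (1 - a') - b (1 - a)| := one_mul _
    linarith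
  have M1' : ∀ a a' t, a ≤ a' → 0 ≤ t → t ≤ 1 → Φ a t ≤ Φ a' t := by
    intro a a' t h1 h2 h3
    rcases h1.eq_or_lt with rfl | h1
    · exact le_rfl
    · exact (M1 a a' t h1 h2 h3).le
  have M2 : ∀ a t t', t ≤ t' → Φ a t' ≤ Φ a t := by
    intro a t t' h
    rw [hΦe, hΦe]
    have h1 : ε * t * b (1 - a) ≤ ε * t' * b (1 - a) :=
      mul_le_mul_of_nonneg_right (mul_le_mul_of_nonneg_left h b1.le) (b4 _)
    linarith
  have M3 : ∀ a t, 0 ≤ t → Φ a t ≤ a := by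
    intro a t h
    rw [hΦe]
    have h1 : 0 ≤ ε * t * b (1 - a) := mul_nonneg (mul_nonneg b1.le h) (b4 _)
    linarith
  have M4 : ∀ a t, c ≤ 1 - a → Φ a t = a := by
    intro a t h
    rw [hΦe, b6 (1 - a) (h.trans (le_abs_self _)), mul_zero, sub_zero]
  have M5 : ∀ a t, 1 / 2 < a → t ≤ 1 → 0 < Φ a t := by
    intro a t h1 h2
    rw [hΦe]
    have h3 : ε * t * b (1 - a) ≤ 1 / 4 := by
      have h4 : ε * t * b (1 - a) ≤ ε * 1 * b (1 - a) :=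
        mul_le_mul_of_nonneg_right (mul_le_mul_of_nonneg_left h2 b1.le) (b4 _)
      have h5 : ε * 1 * b (1 - a) ≤ ε * 1 * 1 :=
        mul_le_mul_of_nonneg_left (b5 _) (by linarith)
      linarith
    linarith
  have M6 : ∀ t, Φ 1 0 = 1 ∧ Φ 1 t = 1 - ε * t := by
    intro t
    have h1 : b (1 - 1) = 1 := b7 _ (by rw [sub_self, abs_zero]; linarith)
    rw [hΦe, hΦe, h1]
    constructor <;> ring
  obtain ⟨la, hla⟩ : ∃ la : E n → ℝ, la = fun x => Φ ‖G x‖ (1 - ‖x‖) := ⟨_, rfl⟩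
  have hlae : ∀ x, la x = Φ ‖G x‖ (1 - ‖x‖) := fun x => by rw [hla]
  obtain ⟨Ψ, hΨ⟩ : ∃ Ψ : E n → E n, Ψ = fun x => la x • uv G x := ⟨_, rfl⟩
  have hΨe : ∀ x, Ψ x = la x • uv G x := fun x => by rw [hΨ]
  have hlapos : ∀ x ∈ A n δ₄, 0 < la x := by
    intro x hx
    rw [hlae]
    exact M5 _ _ (g2 x hx) (by linarith [norm_nonneg x])
  have hΨn : ∀ x ∈ A n δ₄, ‖Ψ x‖ = la x := by
    intro x hx
    rw [hΨe, norm_smul, norm_uv (g5 x hx), mul_one, Real.norm_of_nonneg (hlapos x hx).le]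
  have hΨs : ∀ x ∈ A n δ₄, ContDiffAt ℝ ∞ Ψ x := by
    intro x hx
    have h1 : ContDiffAt ℝ ∞ (fun x => ‖G x‖) x := (g1 x hx).norm ℝ (g5 x hx)
    have h2 : ContDiffAt ℝ ∞ (fun x : E n => ‖x‖) x := contDiffAt_id.norm ℝ (g6 x hx)
    have h3 : ContDiffAt ℝ ∞ (fun x => b (1 - ‖G x‖)) x :=
      b3.contDiffAt.comp x (contDiffAt_const.sub h1)
    have h4 : ContDiffAt ℝ ∞ la x := by
      rw [hla, hΦ]
      exact h1.sub ((contDiffAt_const.mul (contDiffAt_const.sub h2)).mul h3)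
    rw [hΨ]
    exact h4.smul (uv_smooth (g1 x hx) (g5 x hx))
  have hΨid : ∀ x, ‖x‖ = 1 → Ψ x = x := by
    intro x hx
    rw [hΨe, hlae, hid x hx, hx, sub_self, (M6 0).1, one_smul, uv, hid x hx, hx, inv_one, one_smul]
  have huvN : ∀ x ∈ A n δ₄, uv G x = ‖Ψ x‖⁻¹ • Ψ x := by
    intro x hx
    rw [hΨn x hx, hΨe, smul_smul, inv_mul_cancel₀ (hlapos x hx).ne', one_smul]
  have hΨne : ∀ x ∈ A n δ₄, Ψ x ≠ 0 := by
    intro x hx h
    have h1 := hΨn x hx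
    rw [h, norm_zero] at h1
    exact (hlapos x hx).ne h1
  -- points of the shell in terms of the rays
  have hx_ray : ∀ x : E n, 1 - δ₁ ≤ ‖x‖ → ‖x‖ ≤ 1 →
      ‖uv G x‖ = 1 ∧ x = θ (‖x‖ • uv G x) ∧ ‖G x‖ = γ (uv G x) ‖x‖ := by
    intro x h1 h2
    have h3 := hS4 x h1 h2
    have h4 : x = θ (‖x‖ • uv G x) := (hθ1 x h3).symm
    refine ⟨norm_uv (g5 x h3), h4, ?_⟩
    rw [hγe, ← h4]
  have hla0 : ∀ q, ‖q‖ = 1 → c ≤ 1 - γ q (1 - δ₁) := by
    intro q hq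
    rw [hγe]
    exact (hc _ (hrn q _ hq (by linarith) (by linarith))).le
  have hΨr : ∀ q s, ‖q‖ = 1 → 1 - δ₅ < s → s < 1 + δ₅ →
      Ψ (θ (s • q)) = Φ (γ q s) (1 - s) • q := by
    intro q s hq h1 h2
    rw [hΨe, hlae, hru q s hq h1 h2, hrn q s hq h1 h2, hγe]
  refine ⟨δ₁, Ψ, l1, by linarith, l3, fun x h1 h2 => ?_, fun x h1 => ?_, hΨid, fun x hx => ?_,
    fun x h1 h2 v hv hv' => ?_, ?_, ?_⟩
  · filter_upwards [(isOpen_A δ₄).mem_nhds (hS4 x h1 h2)] with y hy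
    exact hΨs y hy
  · have h3 : x ∈ A n δ₄ := hS4 x (by rw [h1]) (by rw [h1]; linarith)
    have h4 : ContinuousAt (fun y => 1 - ‖G y‖) x :=
      continuousAt_const.sub (g1 x h3).continuousAt.norm
    filter_upwards [(isOpen_A δ₄).mem_nhds h3, h4.eventually (lt_mem_nhds (hc x h1))] with y hy hy'
    rw [hΨe, hlae, M4 _ _ (le_of_lt hy'), ← hG y hy]
  · have h3 : x ∈ A n δ₄ := hsub4 (mem_sphere_zero_iff_norm.2 hx)
    refine LD_sphere hx ?_ hΨid b1 ?_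
    · filter_upwards [(isOpen_A δ₄).mem_nhds h3] with y hy
      exact hΨs y hy
    · have h4 : ContinuousAt (fun y => 1 - ‖G y‖) x :=
        continuousAt_const.sub (g1 x h3).continuousAt.norm
      have h5 : ∀ᶠ y in 𝓝 x, 1 - ‖G y‖ < c / 2 := by
        refine h4.eventually (gt_mem_nhds ?_)
        show 1 - ‖G x‖ < c / 2
        rw [hid x hx, hx]
        linarith
      filter_upwards [(hsx x).eventually h5, (hsx x).eventually ((isOpen_A δ₄).mem_nhds h3),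
        hpos1, self_mem_nhdsWithin] with s r1 r2 r3 r4
      have r4' : s < 1 := r4
      have r5 : ‖s • x‖ = s := by rw [norm_smul, hx, mul_one, Real.norm_of_nonneg r3.le]
      have r2' := r2.1
      rw [r5] at r2'
      have r6 : ‖G (s • x)‖ < 1 := hn _ (by rw [r5]; linarith) (by rw [r5]; exact r4')
      rw [hΨn _ r2, hlae, hΦe, r5, b7 _ (by rw [abs_of_pos (by linarith)]; exact r1.le)]
      linarith
  · by_contra hv0
    have h3 := hS4 x h1 h2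
    obtain ⟨cu, a, ha, hc0', hc1', hc2'⟩ := exists_curve (g6 x h3) hv0 hv
    have h4 : ∀ t, cu t ∈ A n δ₄ := fun t => hS4 _ (by rw [hc1' t]; exact h1)
      (by rw [hc1' t]; exact h2)
    -- derivative of `Th G` along the curve
    obtain ⟨B, hB⟩ := (g3 x h3).exists_equiv
    have h5 : HasDerivAt (fun t => Th G (cu t)) (B (a • v)) 0 := by
      have h6 : HasFDerivAt (Th G) (B : E n →L[ℝ] E n) (cu 0) := by
        rw [hc0']
        exact hB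
      exact h6.comp_hasDerivAt 0 hc2'
    have h7 : HasDerivAt (fun t => Ψ (cu t)) (fderiv ℝ Ψ x (a • v)) 0 := by
      have h6 : HasFDerivAt Ψ (fderiv ℝ Ψ x) (cu 0) := by
        rw [hc0']
        exact ((hΨs x h3).differentiableAt (by simp)).hasFDerivAt
      exact h6.comp_hasDerivAt 0 hc2'
    rw [map_smul, hv', smul_zero] at h7
    have h8 : ContDiffAt ℝ ∞ (fun z : E n => ‖z‖⁻¹ • z) (Ψ x) :=
      (((contDiffAt_id.norm ℝ (hΨne x h3)).inv (norm_ne_zero_iff.2 (hΨne x h3))).smul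
        contDiffAt_id)
    have h9 : HasDerivAt (fun t => ‖Ψ (cu t)‖⁻¹ • Ψ (cu t)) 0 0 := by
      have h6 : HasFDerivAt (fun z : E n => ‖z‖⁻¹ • z)
          (fderiv ℝ (fun z : E n => ‖z‖⁻¹ • z) (Ψ x)) (Ψ (cu 0)) := by
        rw [hc0']
        exact (h8.differentiableAt (by simp)).hasFDerivAt
      have h10 := h6.comp_hasDerivAt (f := fun t => Ψ (cu t)) 0 h7
      rw [map_zero] at h10
      exact h10
    have h10 : (fun t => Th G (cu t)) = fun t => ‖x‖ • (‖Ψ (cu t)‖⁻¹ • Ψ (cu t)) := by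
      funext t
      rw [Th, huvN _ (h4 t), hc1' t]
    have h11 : HasDerivAt (fun t => Th G (cu t)) ((‖x‖ : ℝ) • (0 : E n)) 0 := by
      rw [h10]
      exact h9.const_smul ‖x‖
    rw [smul_zero] at h11
    have h12 := h5.unique h11
    have h13 : a • v = 0 := by
      have h14 := congrArg B.symm h12
      rwa [B.symm_apply_apply, map_zero] at h14
    exact hv0 ((smul_eq_zero.1 h13).resolve_left ha)
  · rintro x ⟨hx1, hx2⟩ y ⟨hy1, hy2⟩ hxy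
    obtain ⟨x3, x4, x5⟩ := hx_ray x hx1 hx2
    obtain ⟨y3, y4, y5⟩ := hx_ray y hy1 hy2
    have h1 : la x = la y := by
      rw [← hΨn x (hS4 x hx1 hx2), ← hΨn y (hS4 y hy1 hy2), hxy]
    have h2 : uv G x = uv G y := by
      rw [huvN x (hS4 x hx1 hx2), huvN y (hS4 y hy1 hy2), hxy]
    rw [← h2] at y3 y4 y5
    have key : ∀ s s', 1 - δ₁ ≤ s → s < s' → s' ≤ 1 →
        Φ (γ (uv G x) s) (1 - s) < Φ (γ (uv G x) s') (1 - s') := by
      intro s s' r1 r2 r3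
      calc Φ (γ (uv G x) s) (1 - s) ≤ Φ (γ (uv G x) s) (1 - s') := M2 _ _ _ (by linarith)
        _ < Φ (γ (uv G x) s') (1 - s') := M1 _ _ _ (hγm _ x3 s s' (by linarith) r2 r3)
            (by linarith) (by linarith)
    rw [hlae, hlae, x5, y5] at h1
    have h3 : ‖x‖ = ‖y‖ := by
      rcases lt_trichotomy ‖x‖ ‖y‖ with h | h | h
      · exact absurd h1 (key _ _ hx1 h hy2).ne
      · exact h
      · exact absurd h1 (key _ _ hy1 h hx2).ne'
    rw [x4, y4, h3]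
  · apply Subset.antisymm
    · rintro _ ⟨x, ⟨hx1, hx2⟩, rfl⟩
      obtain ⟨x3, x4, x5⟩ := hx_ray x hx1 hx2
      have hcont : ContinuousOn (γ (uv G x)) (Icc (1 - δ₁) 1) :=
        (hγc _ x3).mono fun r hr => ⟨by linarith [hr.1], by linarith [hr.2]⟩
      have h1 : la x ∈ Icc (γ (uv G x) (1 - δ₁)) (γ (uv G x) 1) := by
        rw [hlae, x5, hγ1 _ x3]
        have hm : γ (uv G x) (1 - δ₁) ≤ γ (uv G x) ‖x‖ := by
          rcases hx1.eq_or_lt with h | h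
          · rw [h]
          · exact (hγm _ x3 _ _ (by linarith) h hx2).le
        have hm1 : γ (uv G x) ‖x‖ ≤ 1 := by
          rcases hx2.eq_or_lt with h | h
          · rw [h, hγ1 _ x3]
          · exact (hγlt _ _ x3 (by linarith) h).le
        constructor
        · calc γ (uv G x) (1 - δ₁) = Φ (γ (uv G x) (1 - δ₁)) (1 - ‖x‖) :=
                (M4 _ _ (hla0 _ x3)).symm
            _ ≤ _ := M1' _ _ _ hm (by linarith) (by linarith)
        · exact (M3 _ _ (by linarith)).trans hm1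
      obtain ⟨s, hs', hs''⟩ := intermediate_value_Icc (by linarith) hcont h1
      have r1 : 1 - δ₅ < s := by linarith [hs'.1]
      have r2 : s < 1 + δ₅ := by linarith [hs'.2]
      refine ⟨θ (s • uv G x), ⟨?_, ?_⟩, ?_⟩
      · rw [hrn _ s x3 r1 r2]
        exact hs'.1
      · rw [hrn _ s x3 r1 r2]
        exact hs'.2
      · rw [hrG _ s x3 r1 r2, hs'', hΨe]
    · rintro _ ⟨x, ⟨hx1, hx2⟩, rfl⟩
      obtain ⟨x3, x4, x5⟩ := hx_ray x hx1 hx2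
      have hcont : ContinuousOn (γ (uv G x)) (Icc (1 - δ₁) 1) :=
        (hγc _ x3).mono fun r hr => ⟨by linarith [hr.1], by linarith [hr.2]⟩
      have hcont2 : ContinuousOn (fun s => Φ (γ (uv G x) s) (1 - s)) (Icc (1 - δ₁) 1) := by
        rw [hΦ]
        exact hcont.sub ((continuousOn_const.mul (continuousOn_const.sub continuousOn_id)).mul
          (b3.continuous.comp_continuousOn (continuousOn_const.sub hcont)))
      have h1 : ‖G x‖ ∈ Icc (Φ (γ (uv G x) (1 - δ₁)) (1 - (1 - δ₁))) (Φ (γ (uv G x) 1) (1 - 1)) := by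
        rw [x5, hγ1 _ x3, sub_self, (M6 0).1, M4 _ _ (hla0 _ x3)]
        constructor
        · rcases hx1.eq_or_lt with h | h
          · rw [h]
          · exact (hγm _ x3 _ _ (by linarith) h hx2).le
        · rcases hx2.eq_or_lt with h | h
          · rw [h, hγ1 _ x3]
          · exact (hγlt _ _ x3 (by linarith) h).le
      obtain ⟨s, hs', hs''⟩ := intermediate_value_Icc (by linarith) hcont2 h1
      have r1 : 1 - δ₅ < s := by linarith [hs'.1]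
      have r2 : s < 1 + δ₅ := by linarith [hs'.2]
      refine ⟨θ (s • uv G x), ⟨?_, ?_⟩, ?_⟩
      · rw [hrn _ s x3 r1 r2]
        exact hs'.1
      · rw [hrn _ s x3 r1 r2]
        exact hs'.2
      · have hs3 : Φ (γ (uv G x) s) (1 - s) = ‖G x‖ := hs''
        rw [hΨr _ s x3 r1 r2, hs3, ← hG x (hS4 x hx1 hx2)]

end Pool.Agent.V1127.Sf
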