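import Pool.Agent.V1127.Sf.Radial
import Pool.Agent.Y522.Sch
import Pool.Agent.V1127.Co.All

/-!
# The Schoenflies theorem for balls with three smooth coordinates, up to the boundary
-/

set_option autoImplicit false

open Set Filter Topology Metric Function
open scoped Manifold ContDiff RealInnerProductSpace

noncomputable section

namespace Pool.Agent.V1127.Sf

open Pool.Agent.Y522

/-- `m` linear coordinates of `H` are smooth near `x` and independent at `x` -/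
def Co (m : ℕ) (H : E (m + 1) → E (m + 1)) (x : E (m + 1)) : Prop :=
  ∃ P : E (m + 1) →L[ℝ] E m, (∀ᶠ y in 𝓝 x, ContDiffAt ℝ ∞ (fun y => P (H y)) y) ∧
    Surjective (fderiv ℝ (fun y => P (H y)) x)

theorem Co.congr {m : ℕ} {H H' : E (m + 1) → E (m + 1)} {x : E (m + 1)} (h : Co m H x)
    (he : H' =ᶠ[𝓝 x] H) : Co m H' x := by
  obtain ⟨P, h1, h2⟩ := h
  have he' : (fun y => P (H' y)) =ᶠ[𝓝 x] fun y => P (H y) := he.fun_comp P
  refine ⟨P, ?_, ?_⟩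
  · filter_upwards [h1, he'.eventuallyEq_nhds] with y hy hy'
    exact hy.congr_of_eventuallyEq hy'
  · rw [he'.fderiv_eq]
    exact h2

theorem Co.of_perp {m : ℕ} {H : E (m + 1) → E (m + 1)} {x : E (m + 1)} (hx : x ≠ 0)
    (hs : ∀ᶠ y in 𝓝 x, ContDiffAt ℝ ∞ H y)
    (hi : ∀ v, ⟪x, v⟫ = 0 → fderiv ℝ H x v = 0 → v = 0) : Co m H x := by
  let L : E (m + 1) →ₗ[ℝ] E (m + 1) := (fderiv ℝ H x).toLinearMap
  let K : Submodule ℝ (E (m + 1)) := (ℝ ∙ x)ᗮ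
  have : Fact (Module.finrank ℝ (E (m + 1)) = m + 1) := ⟨by simp⟩
  have hK : Module.finrank ℝ K = m := Submodule.finrank_orthogonal_span_singleton hx
  have h1 : m ≤ Module.finrank ℝ (LinearMap.range L) := by
    refine hK.ge.trans ?_
    refine LinearMap.finrank_le_finrank_of_injective (f := L.rangeRestrict ∘ₗ K.subtype) ?_
    rw [injective_iff_map_eq_zero]
    intro v hv
    have h2 : fderiv ℝ H x v = 0 := congrArg Subtype.val hv
    refine Subtype.ext (hi v ?_ h2)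
    exact (Submodule.mem_orthogonal_singleton_iff_inner_right.1 v.2)
  obtain ⟨P, hP⟩ := Pool.Agent.Y170.NA.exists_proj (m := m) (LinearMap.range L) h1
  have hd : HasFDerivAt (fun y => P (H y)) (P.comp (fderiv ℝ H x)) x :=
    P.hasFDerivAt.comp x (hs.self_of_nhds.differentiableAt (by simp)).hasFDerivAt
  refine ⟨P, ?_, ?_⟩
  · filter_upwards [hs] with y hy
    exact P.contDiff.contDiffAt.comp y hy
  · rw [hd.fderiv]
    intro y
    obtain ⟨w, ⟨v, rfl⟩, hw⟩ := hP y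
    exact ⟨v, hw⟩

theorem sf_core (m : ℕ) (Γ H G : E (m + 1) → E (m + 1)) (D : Set (E (m + 1)))
    (hΓL : ∀ z ∈ D, LD (m + 1) Γ z) (hΓi : InjOn Γ D) (δ : ℝ) (hδ : 0 < δ)
    (hG : ∀ y ∈ A (m + 1) δ, ContDiffAt ℝ ∞ G y ∧ G y ∈ D ∧ Γ (G y) = H y)
    (hid : ∀ x, ‖x‖ = 1 → G x = x) (hn : ∀ x, 1 - δ < ‖x‖ → ‖x‖ < 1 → ‖G x‖ < 1)
    (hHc : ContinuousOn H (closedBall 0 1)) (hHi : InjOn H (closedBall 0 1))
    (hint : ∀ x, ‖x‖ < 1 → LD (m + 1) H x ∨ Co m H x) :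
    ∃ (F : E (m + 1) → E (m + 1)) (O : E (m + 1) ≃ₗᵢ[ℝ] E (m + 1)) (R' : ℝ), Bijective F ∧
      (∀ x, LD (m + 1) F x) ∧ (∀ x, ‖x‖ = 1 → F x = H x) ∧
      F '' closedBall 0 1 = H '' closedBall 0 1 ∧ ∀ x, R' ≤ ‖x‖ → F x = O x := by
  classical
  have hsph : ∀ x : E (m + 1), ‖x‖ = 1 → A (m + 1) δ ∈ 𝓝 x := fun x hx =>
    (isOpen_A δ).mem_nhds ⟨by rw [hx]; linarith, by rw [hx]; linarith⟩
  obtain ⟨δ₁, Ψ, l1, l2, l3, p1, p2, p3, p4, p5, p6, p7⟩ := radial δ hδ G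
    (fun x hx => by
      filter_upwards [hsph x hx] with y hy
      exact (hG y hy).1) hid
    (by
      rintro x ⟨hx1, hx2⟩ y ⟨hy1, hy2⟩ hxy
      refine hHi (mem_closedBall_zero_iff.2 hx2) (mem_closedBall_zero_iff.2 hy2) ?_
      rw [← (hG x ⟨hx1, by linarith⟩).2.2, ← (hG y ⟨hy1, by linarith⟩).2.2, hxy]) hn
  obtain ⟨S, hS⟩ : ∃ S : Set (E (m + 1)), S = {x | 1 - δ₁ ≤ ‖x‖ ∧ ‖x‖ ≤ 1} := ⟨_, rfl⟩
  rw [← hS] at p6 p7
  have hSm : ∀ x, x ∈ S ↔ 1 - δ₁ ≤ ‖x‖ ∧ ‖x‖ ≤ 1 := fun x => by rw [hS]; rfl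
  have hSA : ∀ x ∈ S, x ∈ A (m + 1) δ := fun x hx =>
    ⟨by linarith [((hSm x).1 hx).1], by linarith [((hSm x).1 hx).2]⟩
  have hΨD : ∀ x ∈ S, Ψ x ∈ D := by
    intro x hx
    have h1 : Ψ x ∈ G '' S := p7 ▸ mem_image_of_mem Ψ hx
    obtain ⟨y, hy, hyx⟩ := h1
    rw [← hyx]
    exact (hG y (hSA y hy)).2.1
  have hΓΨ : ∀ x ∈ S, ∃ y ∈ S, Γ (Ψ x) = H y := by
    intro x hx
    have h1 : Ψ x ∈ G '' S := p7 ▸ mem_image_of_mem Ψ hx
    obtain ⟨y, hy, hyx⟩ := h1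
    exact ⟨y, hy, by rw [← hyx, (hG y (hSA y hy)).2.2]⟩
  have hHΨ : ∀ y ∈ S, ∃ x ∈ S, Γ (Ψ x) = H y := by
    intro y hy
    have h1 : G y ∈ Ψ '' S := p7 ▸ mem_image_of_mem G hy
    obtain ⟨x, hx, hyx⟩ := h1
    exact ⟨x, hx, by rw [hyx, (hG y (hSA y hy)).2.2]⟩
  obtain ⟨H', hH'1, hH'2⟩ : ∃ H' : E (m + 1) → E (m + 1), (∀ x, ‖x‖ < 1 - δ₁ → H' x = H x) ∧
      ∀ x, 1 - δ₁ ≤ ‖x‖ → H' x = Γ (Ψ x) :=
    ⟨fun x => if ‖x‖ < 1 - δ₁ then H x else Γ (Ψ x), fun x hx => if_pos hx,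
      fun x hx => if_neg (not_lt.2 hx)⟩
  have near1 : ∀ x, ‖x‖ ≤ 1 - δ₁ → H' =ᶠ[𝓝 x] H := by
    intro x hx
    rcases hx.eq_or_lt with hx | hx
    · have hxA : A (m + 1) δ ∈ 𝓝 x :=
        (isOpen_A δ).mem_nhds ⟨by rw [hx]; linarith, by rw [hx]; linarith⟩
      filter_upwards [p2 x hx, hxA] with y hy hy'
      by_cases h : ‖y‖ < 1 - δ₁
      · exact hH'1 y h
      · rw [hH'2 y (not_lt.1 h), hy, (hG y hy').2.2]
    · filter_upwards [(isOpen_lt continuous_norm continuous_const).mem_nhds hx] with y hy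
      exact hH'1 y hy
  have near2 : ∀ x, 1 - δ₁ < ‖x‖ → H' =ᶠ[𝓝 x] fun y => Γ (Ψ y) := by
    intro x hx
    filter_upwards [(isOpen_lt continuous_const continuous_norm).mem_nhds hx] with y hy
    exact hH'2 y (le_of_lt hy)
  have hinj : InjOn H' (closedBall 0 1) := by
    have cross : ∀ x y : E (m + 1), ‖x‖ < 1 - δ₁ → y ∈ S → H' x ≠ H' y := by
      intro x y hx hy hxy
      rw [hH'1 x hx, hH'2 y ((hSm y).1 hy).1] at hxy
      obtain ⟨z, hz, hz'⟩ := hΓΨ y hy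
      rw [hz'] at hxy
      have h1 := hHi (mem_closedBall_zero_iff.2 (by linarith))
        (mem_closedBall_zero_iff.2 ((hSm z).1 hz).2) hxy
      rw [h1] at hx
      linarith [((hSm z).1 hz).1]
    intro x hx y hy hxy
    rw [mem_closedBall_zero_iff] at hx hy
    rcases lt_or_ge ‖x‖ (1 - δ₁) with h1 | h1 <;> rcases lt_or_ge ‖y‖ (1 - δ₁) with h2 | h2
    · rw [hH'1 x h1, hH'1 y h2] at hxy
      exact hHi (mem_closedBall_zero_iff.2 hx) (mem_closedBall_zero_iff.2 hy) hxy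
    · exact absurd hxy (cross x y h1 ((hSm y).2 ⟨h2, hy⟩))
    · exact absurd hxy.symm (cross y x h2 ((hSm x).2 ⟨h1, hx⟩))
    · rw [hH'2 x h1, hH'2 y h2] at hxy
      have hx' := (hSm x).2 ⟨h1, hx⟩
      have hy' := (hSm y).2 ⟨h2, hy⟩
      exact p6 hx' hy' (hΓi (hΨD x hx') (hΨD y hy') hxy)
  have himg : H' '' closedBall 0 1 = H '' closedBall 0 1 := by
    apply Subset.antisymm
    · rintro _ ⟨x, hx, rfl⟩
      rw [mem_closedBall_zero_iff] at hx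
      rcases lt_or_ge ‖x‖ (1 - δ₁) with h1 | h1
      · rw [hH'1 x h1]
        exact ⟨x, mem_closedBall_zero_iff.2 hx, rfl⟩
      · obtain ⟨y, hy, hy'⟩ := hΓΨ x ((hSm x).2 ⟨h1, hx⟩)
        rw [hH'2 x h1, hy']
        exact ⟨y, mem_closedBall_zero_iff.2 ((hSm y).1 hy).2, rfl⟩
    · rintro _ ⟨x, hx, rfl⟩
      rw [mem_closedBall_zero_iff] at hx
      rcases lt_or_ge ‖x‖ (1 - δ₁) with h1 | h1
      · rw [← hH'1 x h1]
        exact ⟨x, mem_closedBall_zero_iff.2 hx, rfl⟩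
      · obtain ⟨y, hy, hy'⟩ := hHΨ x ((hSm x).2 ⟨h1, hx⟩)
        rw [← hy', ← hH'2 y ((hSm y).1 hy).1]
        exact ⟨y, mem_closedBall_zero_iff.2 ((hSm y).1 hy).2, rfl⟩
  have hLDs : ∀ x, ‖x‖ = 1 → LD (m + 1) H' x := by
    intro x hx
    have hxS : x ∈ S := (hSm x).2 ⟨by rw [hx]; linarith, hx.le⟩
    refine LD.congr ?_ (near2 x (by rw [hx]; linarith))
    exact LD.comp_fun (hΓL _ (hΨD x hxS)) (p4 x hx)
  have hH's : ∀ x, ‖x‖ = 1 → H' x = H x := by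
    intro x hx
    have hxA : x ∈ A (m + 1) δ := mem_of_mem_nhds (hsph x hx)
    have h1 : Γ x = H x := by
      have := (hG x hxA).2.2
      rwa [hid x hx] at this
    rw [hH'2 x (by rw [hx]; linarith), p3 x hx, h1]
  have hcont : ∀ x, ‖x‖ ≤ 1 → ContinuousAt H' x := by
    intro x hx
    rcases le_or_gt ‖x‖ (1 - δ₁) with h1 | h1
    · have h2 : closedBall (0 : E (m + 1)) 1 ∈ 𝓝 x :=
        mem_of_superset (isOpen_ball.mem_nhds (mem_ball_zero_iff.2 (by linarith)))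
          ball_subset_closedBall
      exact (hHc.continuousAt h2).congr (near1 x h1).symm
    · have h2 : ContinuousAt (fun y => Γ (Ψ y)) x :=
        ContinuousAt.comp (hΓL _ (hΨD x ((hSm x).2 ⟨h1.le, hx⟩))).continuousAt
          (p1 x h1.le hx).self_of_nhds.continuousAt
      exact h2.congr (near2 x h1).symm
  -- injectivity near the closed ball
  obtain ⟨t, ht, hti⟩ := hinj.exists_mem_nhdsSet (isCompact_closedBall 0 1)
    (fun x hx => hcont x (mem_closedBall_zero_iff.1 hx)) (fun x hx => by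
      rcases (mem_closedBall_zero_iff.1 hx).eq_or_lt with h1 | h1
      · exact (hLDs x h1).eventually_injOn
      · exact ⟨ball 0 1, isOpen_ball.mem_nhds (mem_ball_zero_iff.2 h1),
          hinj.mono ball_subset_closedBall⟩)
  obtain ⟨V, hVo, hVs, hVt⟩ := mem_nhdsSet_iff_exists.1 ht
  obtain ⟨δ', hδ', hth⟩ := (isCompact_closedBall (0 : E (m + 1)) 1).exists_thickening_subset_open
    hVo hVs
  rw [thickening_closedBall hδ' zero_le_one] at hth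
  obtain ⟨δ'', e1, e2, e3⟩ := shell_of_forall (n := m + 1) (p := fun y => LD (m + 1) H' y)
    fun x hx => (hLDs x hx).eventually
  obtain ⟨η, hη, hη1, hη2⟩ : ∃ η, 0 < η ∧ η ≤ δ' ∧ η ≤ δ'' :=
    ⟨min δ' δ'', by positivity, min_le_left _ _, min_le_right _ _⟩
  have hout : ∀ x : E (m + 1), 1 ≤ ‖x‖ → ‖x‖ < 1 + η → LD (m + 1) H' x := fun x h1 h2 =>
    e3 x ⟨by linarith, by linarith⟩
  obtain ⟨F, O, R', q1, q2, q3, q4, q5⟩ := stSch1 m H' η hη (by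
      intro x hx
      rw [mem_ball_zero_iff] at hx
      rcases le_total ‖x‖ 1 with h | h
      · exact (hcont x h).continuousWithinAt
      · exact (hout x h hx).continuousAt.continuousWithinAt)
    (hti.mono fun x hx => hVt (hth (by
      rw [mem_ball_zero_iff] at hx ⊢
      linarith))) hout (by
      intro x hx hnL
      rcases le_or_gt ‖x‖ (1 - δ₁) with h1 | h1
      · rcases hint x hx with h2 | h2
        · exact absurd (h2.congr (near1 x h1)) hnL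
        · exact h2.congr (near1 x h1)
      · have hxS : x ∈ S := (hSm x).2 ⟨h1.le, hx.le⟩
        have h2 : Co m (fun y => Γ (Ψ y)) x := by
          refine Co.of_perp ?_ ?_ ?_
          · intro h
            rw [h, norm_zero] at h1
            linarith
          · have h3 : ∀ᶠ y in 𝓝 x, LD (m + 1) Γ (Ψ y) :=
              (p1 x h1.le hx.le).self_of_nhds.continuousAt.eventually
                (hΓL _ (hΨD x hxS)).eventually
            filter_upwards [p1 x h1.le hx.le, h3] with y hy hy'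
            exact hy'.contDiffAt.comp y hy
          · intro v hv hv'
            obtain ⟨B, hB⟩ := (hΓL _ (hΨD x hxS)).exists_equiv
            have h4 : HasFDerivAt (fun y => Γ (Ψ y)) ((B : E (m + 1) →L[ℝ] E (m + 1)).comp
                (fderiv ℝ Ψ x)) x :=
              hB.comp x ((p1 x h1.le hx.le).self_of_nhds.differentiableAt (by simp)).hasFDerivAt
            rw [h4.fderiv] at hv'
            have h5 : B (fderiv ℝ Ψ x v) = 0 := hv'
            have h6 : fderiv ℝ Ψ x v = 0 := by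
              have h14 := congrArg B.symm h5
              rwa [B.symm_apply_apply, map_zero] at h14
            exact p5 x h1.le hx.le v hv h6
        exact h2.congr (near2 x h1))
  exact ⟨F, O, R', q1, q2, fun x hx => (q3 x hx).trans (hH's x hx), q4.trans himg, q5⟩

/-- the inversion in the unit sphere -/
def iv {n : ℕ} (z : E n) : E n := (‖z‖ ^ 2)⁻¹ • z

theorem norm_iv {n : ℕ} {z : E n} (hz : z ≠ 0) : ‖iv z‖ = ‖z‖⁻¹ := by
  have h1 : ‖z‖ ≠ 0 := norm_ne_zero_iff.2 hz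
  rw [iv, norm_smul, norm_inv, norm_pow, norm_norm]
  field_simp

theorem iv_iv {n : ℕ} {z : E n} (hz : z ≠ 0) : iv (iv z) = z := by
  have h1 : ‖z‖ ≠ 0 := norm_ne_zero_iff.2 hz
  have h2 : iv (iv z) = (‖iv z‖ ^ 2)⁻¹ • iv z := rfl
  rw [h2, norm_iv hz, iv, smul_smul]
  have h3 : ((‖z‖⁻¹) ^ 2)⁻¹ * (‖z‖ ^ 2)⁻¹ = 1 := by field_simp
  rw [h3, one_smul]

theorem iv_ne {n : ℕ} {z : E n} (hz : z ≠ 0) : iv z ≠ 0 := by
  have h1 : ‖z‖ ≠ 0 := norm_ne_zero_iff.2 hz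
  intro h
  have h2 := norm_iv hz
  rw [h, norm_zero] at h2
  exact (inv_ne_zero h1) h2.symm

theorem iv_smooth {n : ℕ} {z : E n} (hz : z ≠ 0) : ContDiffAt ℝ ∞ (iv : E n → E n) z :=
  (((contDiffAt_id.norm ℝ hz).pow 2).inv (pow_ne_zero 2 (norm_ne_zero_iff.2 hz))).smul
    contDiffAt_id

theorem LD_iv {n : ℕ} {z : E n} (hz : z ≠ 0) : LD n (iv : E n → E n) z := by
  refine LD_of_inj ?_ fun v hv => ?_
  · filter_upwards [isOpen_ne.mem_nhds hz] with y hy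
    exact iv_smooth hy
  · have h1 : HasFDerivAt (fun y : E n => iv (iv y))
        ((fderiv ℝ iv (iv z)).comp (fderiv ℝ iv z)) z :=
      HasFDerivAt.comp z (((iv_smooth (iv_ne hz)).differentiableAt (by simp)).hasFDerivAt)
        ((iv_smooth hz).differentiableAt (by simp)).hasFDerivAt
    have h2 : HasFDerivAt (fun y : E n => iv (iv y)) (ContinuousLinearMap.id ℝ (E n)) z := by
      refine (hasFDerivAt_id z).congr_of_eventuallyEq ?_
      filter_upwards [isOpen_ne.mem_nhds hz] with y hy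
      exact iv_iv hy
    have h3 := congrArg (fun L : E n →L[ℝ] E n => L v) (h1.unique h2)
    have h4 : fderiv ℝ iv (iv z) (fderiv ℝ iv z v) = v := h3
    rw [hv, map_zero] at h4
    exact h4.symm

theorem shell_preconnected {m : ℕ} (hm : 1 ≤ m) (δ : ℝ) (hδ : δ < 1 / 2) :
    IsPreconnected {x : E (m + 1) | 1 - δ < ‖x‖ ∧ ‖x‖ < 1} := by
  have h1 : 1 < Module.rank ℝ (E (m + 1)) := by
    refine Module.lt_rank_of_lt_finrank ?_
    rw [finrank_euclideanSpace, Fintype.card_fin]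
    omega
  have h2 : IsPreconnected ((Ioo (1 - δ) 1) ×ˢ (sphere (0 : E (m + 1)) 1)) :=
    isPreconnected_Ioo.prod (isPreconnected_sphere h1 0 1)
  have h3 := h2.image (fun p : ℝ × E (m + 1) => p.1 • p.2)
    (continuous_fst.smul continuous_snd).continuousOn
  have h4 : (fun p : ℝ × E (m + 1) => p.1 • p.2) '' ((Ioo (1 - δ) 1) ×ˢ
      (sphere (0 : E (m + 1)) 1)) = {x : E (m + 1) | 1 - δ < ‖x‖ ∧ ‖x‖ < 1} := by
    ext x
    constructor
    · rintro ⟨⟨s, q⟩, ⟨hs, hq⟩, rfl⟩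
      have hs' : s ∈ Ioo (1 - δ) 1 := hs
      have hq' : ‖q‖ = 1 := mem_sphere_zero_iff_norm.1 hq
      show 1 - δ < ‖s • q‖ ∧ ‖s • q‖ < 1
      rw [norm_smul, hq', mul_one, Real.norm_of_nonneg (by linarith [hs'.1])]
      exact hs'
    · rintro ⟨hx1, hx2⟩
      have hx0 : 0 < ‖x‖ := by linarith
      refine ⟨(‖x‖, ‖x‖⁻¹ • x), ⟨⟨hx1, hx2⟩, ?_⟩, ?_⟩
      · rw [mem_sphere_zero_iff_norm, norm_smul, norm_inv, norm_norm, inv_mul_cancel₀ hx0.ne']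
      · show ‖x‖ • (‖x‖⁻¹ • x) = x
        rw [smul_smul, mul_inv_cancel₀ hx0.ne', one_smul]
  rwa [h4] at h3

/-- **Schoenflies theorem for balls with `m` smooth linear coordinates, up to the boundary** -/
theorem sf (m : ℕ) (hm : 1 ≤ m) (Γ H : E (m + 1) → E (m + 1))
    (hΓ : ∀ x, ‖x‖ = 1 → LD (m + 1) Γ x) (hHc : ContinuousOn H (closedBall 0 1))
    (hHi : InjOn H (closedBall 0 1)) (hH : ∀ x, ‖x‖ = 1 → H x = Γ x)
    (hHs : ∀ x, ‖x‖ = 1 → ∀ᶠ y in 𝓝 x, ContDiffAt ℝ ∞ H y)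
    (hint : ∀ x, ‖x‖ < 1 → LD (m + 1) H x ∨ Co m H x) :
    ∃ (F : E (m + 1) → E (m + 1)) (O : E (m + 1) ≃ₗᵢ[ℝ] E (m + 1)) (R' : ℝ), Bijective F ∧
      (∀ x, LD (m + 1) F x) ∧ (∀ x, ‖x‖ = 1 → F x = H x) ∧
      F '' closedBall 0 1 = H '' closedBall 0 1 ∧ ∀ x, R' ≤ ‖x‖ → F x = O x := by
  classical
  obtain ⟨δa', a1, a2, a3⟩ := shell_of_forall (n := m + 1) (p := fun y => LD (m + 1) Γ y)
    fun x hx => (hΓ x hx).eventually
  have hΓsph : InjOn Γ (sphere (0 : E (m + 1)) 1) := by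
    intro x hx y hy hxy
    have hx' := mem_sphere_zero_iff_norm.1 hx
    have hy' := mem_sphere_zero_iff_norm.1 hy
    rw [← hH x hx', ← hH y hy'] at hxy
    exact hHi (sphere_subset_closedBall hx) (sphere_subset_closedBall hy) hxy
  obtain ⟨t, ht, hti⟩ := hΓsph.exists_mem_nhdsSet (isCompact_sphere 0 1)
    (fun x hx => (hΓ x (mem_sphere_zero_iff_norm.1 hx)).continuousAt)
    (fun x hx => (hΓ x (mem_sphere_zero_iff_norm.1 hx)).eventually_injOn)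
  obtain ⟨δb', b1, b2, b3⟩ := shell ht
  obtain ⟨δa, c1, c2, c3⟩ : ∃ δa, 0 < δa ∧ δa ≤ δa' ∧ δa ≤ δb' :=
    ⟨min δa' δb', by positivity, min_le_left _ _, min_le_right _ _⟩
  have g1 : ∀ y ∈ A (m + 1) δa, LD (m + 1) Γ y := fun y hy => a3 y (A_mono c2 hy)
  have g2 : InjOn Γ (A (m + 1) δa) := hti.mono ((A_mono c3).trans b3)
  have hsub : ∀ x : E (m + 1), ‖x‖ = 1 → x ∈ A (m + 1) δa := fun x hx =>
    ⟨by rw [hx]; linarith, by rw [hx]; linarith⟩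
  have hne : ∀ y ∈ A (m + 1) δa, y ≠ 0 := by
    intro y hy h
    have := hy.1
    rw [h, norm_zero] at this
    linarith
  have hTo : IsOpen (Γ '' A (m + 1) δa) := isOpen_image_of_LD (isOpen_A δa) g1
  let g : E (m + 1) → E (m + 1) := invFunOn Γ (A (m + 1) δa)
  have hg1 : ∀ y ∈ A (m + 1) δa, g (Γ y) = y := fun y hy => g2.leftInvOn_invFunOn hy
  have hg2 : ∀ z ∈ Γ '' A (m + 1) δa, g z ∈ A (m + 1) δa ∧ Γ (g z) = z ∧ LD (m + 1) g z := by
    rintro z ⟨y, hy, rfl⟩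
    rw [hg1 y hy]
    exact ⟨hy, rfl, LD.inverse (isOpen_A δa) g1 hg1 hy⟩
  obtain ⟨δ, d1, d2, d3⟩ := shell_of_forall (n := m + 1) (p := fun y => ContDiffAt ℝ ∞ H y ∧
      H y ∈ Γ '' A (m + 1) δa) fun x hx => by
    refine (hHs x hx).and ((hHs x hx).self_of_nhds.continuousAt.eventually (hTo.mem_nhds ?_))
    rw [hH x hx]
    exact mem_image_of_mem Γ (hsub x hx)
  obtain ⟨G₀, hG₀⟩ : ∃ G₀ : E (m + 1) → E (m + 1), G₀ = fun x => g (H x) := ⟨_, rfl⟩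
  have hG₀e : ∀ x, G₀ x = g (H x) := fun x => by rw [hG₀]
  have e1 : ∀ y ∈ A (m + 1) δ, ContDiffAt ℝ ∞ G₀ y ∧ G₀ y ∈ A (m + 1) δa ∧ Γ (G₀ y) = H y := by
    intro y hy
    obtain ⟨h1, h2⟩ := d3 y hy
    obtain ⟨h3, h4, h5⟩ := hg2 _ h2
    rw [hG₀e]
    refine ⟨?_, h3, h4⟩
    rw [hG₀]
    exact h5.contDiffAt.comp y h1
  have e2 : ∀ x, ‖x‖ = 1 → G₀ x = x := by
    intro x hx
    rw [hG₀e, hH x hx, hg1 x (hsub x hx)]
  have e3 : ∀ x, 1 - δ < ‖x‖ → ‖x‖ < 1 → ‖G₀ x‖ ≠ 1 := by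
    intro x h1 h2 h3
    have h4 := (e1 x ⟨h1, by linarith⟩).2.2
    rw [← hH _ h3] at h4
    have h5 := hHi (mem_closedBall_zero_iff.2 h3.le) (mem_closedBall_zero_iff.2 h2.le) h4
    rw [h5] at h3
    linarith
  have hpre := shell_preconnected (m := m) hm δ d2
  have hc : ContinuousOn (fun x => ‖G₀ x‖) {x : E (m + 1) | 1 - δ < ‖x‖ ∧ ‖x‖ < 1} := by
    rintro x ⟨h1, h2⟩
    exact (e1 x ⟨h1, by linarith⟩).1.continuousAt.norm.continuousWithinAt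
  by_cases hside : ∃ x : E (m + 1), (1 - δ < ‖x‖ ∧ ‖x‖ < 1) ∧ ‖G₀ x‖ < 1
  · obtain ⟨x₀, hx₀, hx₀'⟩ := hside
    refine sf_core m Γ H G₀ (A (m + 1) δa) g1 g2 δ d1 e1 e2 ?_ hHc hHi hint
    intro x h1 h2
    by_contra h3
    have h4 : 1 < ‖G₀ x‖ := lt_of_le_of_ne (not_lt.1 h3) (e3 x h1 h2).symm
    obtain ⟨z, hz, hz'⟩ := hpre.intermediate_value hx₀ (show x ∈ {x : E (m + 1) |
      1 - δ < ‖x‖ ∧ ‖x‖ < 1} from ⟨h1, h2⟩) hc ⟨hx₀'.le, h4.le⟩
    exact e3 z hz.1 hz.2 hz'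
  · refine sf_core m (fun z => Γ (iv z)) H (fun x => iv (G₀ x))
      {z | z ≠ 0 ∧ iv z ∈ A (m + 1) δa} ?_ ?_ δ d1 ?_ ?_ ?_ hHc hHi hint
    · rintro z ⟨hz1, hz2⟩
      exact LD.comp_fun (g1 _ hz2) (LD_iv hz1)
    · rintro z ⟨hz1, hz2⟩ w ⟨hw1, hw2⟩ hzw
      have h1 : iv z = iv w := g2 hz2 hw2 hzw
      rw [← iv_iv hz1, ← iv_iv hw1, h1]
    · intro y hy
      obtain ⟨h1, h2, h3⟩ := e1 y hy
      have h4 := hne _ h2
      refine ⟨(iv_smooth h4).comp y h1, ⟨iv_ne h4, ?_⟩, ?_⟩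
      · rw [iv_iv h4]
        exact h2
      · show Γ (iv (iv (G₀ y))) = H y
        rw [iv_iv h4]
        exact h3
    · intro x hx
      show iv (G₀ x) = x
      rw [e2 x hx, iv, hx, one_pow, inv_one, one_smul]
    · intro x h1 h2
      have h3 := (e1 x ⟨h1, by linarith⟩).2.1
      show ‖iv (G₀ x)‖ < 1
      rw [norm_iv (hne _ h3)]
      have h4 : 1 < ‖G₀ x‖ := by
        refine lt_of_le_of_ne (not_lt.1 fun h => hside ⟨x, ⟨h1, h2⟩, h⟩) (e3 x h1 h2).symm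
      exact inv_lt_one_of_one_lt₀ h4

end Pool.Agent.V1127.Sf
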