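import Pool.Agent.V1127.Sf.BdyM

/-!
# The Schoenflies theorem for balls whose parametrization is near each interior point smooth of
corank at most one, or has such an inverse
-/

set_option autoImplicit false

open Set Filter Topology Metric Function
open scoped Manifold ContDiff RealInnerProductSpace

noncomputable section

namespace Pool.Agent.V1127.Iso

open Pool.Agent.Y522 Pool.Agent.Y170.NA

theorem Gd.comp {m : ℕ} {A A' B B' : Type} [TopologicalSpace A] [ChartedSpace (E (m + 1)) A]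
    [IsManifold (𝓡 (m + 1)) ∞ A] [TopologicalSpace A'] [ChartedSpace (E (m + 1)) A']
    [IsManifold (𝓡 (m + 1)) ∞ A'] [TopologicalSpace B] [ChartedSpace (E (m + 1)) B]
    [IsManifold (𝓡 (m + 1)) ∞ B] [TopologicalSpace B'] [ChartedSpace (E (m + 1)) B']
    [IsManifold (𝓡 (m + 1)) ∞ B'] (g : A → B) (h₁ : A' → A) (h₂ : B → B') (a : A')
    (h1 : LD (m + 1) h₁ a) (hg : Gd m g (h₁ a)) (h2 : LD (m + 1) h₂ (g (h₁ a))) :
    Gd m (fun x => h₂ (g (h₁ x))) a := by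
  have c1 : Tendsto h₁ (𝓝 a) (𝓝 (h₁ a)) := h1.continuousAt
  have c2 : Tendsto g (𝓝 (h₁ a)) (𝓝 (g (h₁ a))) := hg.self_of_nhds.1.continuousAt
  filter_upwards [h1.eventually, c1.eventually hg, (c2.comp c1).eventually h2.eventually] with
    y hy1 hy2 hy3
  have s1 : ContMDiffAt (𝓡 (m + 1)) (𝓡 (m + 1)) ∞ (fun x => g (h₁ x)) y :=
    ContMDiffAt.comp (g := g) (f := h₁) y hy2.1 hy1.contMDiffAt
  refine ⟨ContMDiffAt.comp (g := h₂) (f := fun x => g (h₁ x)) y (LD.contMDiffAt hy3) s1, ?_⟩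
  exact rank_comp g h₁ h₂ y hy1 hy3 (hy2.1.mdifferentiableAt (by simp)) hy2.2

end Pool.Agent.V1127.Iso

namespace Pool.Agent.V1127.Sf

open Pool.Agent.Y522 Pool.Agent.Y170.NA

/-- `H` has a local inverse at `x` which is smooth of rank at least `m` near `H x` -/
def GB (m : ℕ) (H : E (m + 1) → E (m + 1)) (x : E (m + 1)) : Prop :=
  ∃ k : E (m + 1) → E (m + 1), (∀ᶠ y in 𝓝 x, k (H y) = y) ∧ Iso.Gd m k (H x)

theorem GB.congr {m : ℕ} {H H' : E (m + 1) → E (m + 1)} {x : E (m + 1)} (h : GB m H x)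
    (he : H' =ᶠ[𝓝 x] H) : GB m H' x := by
  obtain ⟨k, h1, h2⟩ := h
  refine ⟨k, ?_, ?_⟩
  · filter_upwards [h1, he] with y hy hy2
    rw [hy2]
    exact hy
  · rw [he.self_of_nhds]
    exact h2

theorem mixsch (m : ℕ) (H : E (m + 1) → E (m + 1)) (η : ℝ) (hη : 0 < η)
    (hc : ContinuousOn H (ball 0 (1 + η))) (hi : InjOn H (ball 0 (1 + η)))
    (hout : ∀ x, 1 ≤ ‖x‖ → ‖x‖ < 1 + η → LD (m + 1) H x)
    (hint : ∀ x, ‖x‖ < 1 → Iso.Gd m H x ∨ GB m H x) :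
    ∃ (F : E (m + 1) → E (m + 1)) (O : E (m + 1) ≃ₗᵢ[ℝ] E (m + 1)) (R' : ℝ), Bijective F ∧
      (∀ x, LD (m + 1) F x) ∧ (∀ x, ‖x‖ = 1 → F x = H x) ∧
      F '' closedBall 0 1 = H '' closedBall 0 1 ∧ ∀ x, R' ≤ ‖x‖ → F x = O x := by
  classical
  have hb1 : ball (0 : E (m + 1)) 1 ⊆ ball 0 (1 + η) := ball_subset_ball (by linarith)
  let U : TopologicalSpace.Opens (E (m + 1)) := ⟨ball 0 1, isOpen_ball⟩
  have hUm : ∀ x : E (m + 1), x ∈ U ↔ ‖x‖ < 1 := fun x => mem_ball_zero_iff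
  have hUH : Continuous fun u : U => H u :=
    ContinuousOn.comp_continuous hc continuous_subtype_val fun u => hb1 u.2
  have hUi : Injective fun u : U => H u := fun u v huv =>
    Subtype.ext (hi (hb1 u.2) (hb1 v.2) huv)
  have hVo : IsOpen (H '' ball 0 1) := by
    have h1 := (Iso.isOpenMap_of_injective (n := m + 1) hUH hUi).isOpen_range
    have h2 : range (fun u : U => H u) = H '' ball 0 1 := by
      ext y
      constructor
      · rintro ⟨u, rfl⟩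
        exact ⟨u, u.2, rfl⟩
      · rintro ⟨x, hx, rfl⟩
        exact ⟨⟨x, hx⟩, rfl⟩
    rwa [h2] at h1
  let V : TopologicalSpace.Opens (E (m + 1)) := ⟨H '' ball 0 1, hVo⟩
  let f0 : U → V := fun u => ⟨H u, mem_image_of_mem H u.2⟩
  have hf0 : IsHomeomorph f0 := by
    refine Iso.isHomeomorph_of_bijective (n := m + 1) (hUH.subtype_mk _) ⟨?_, ?_⟩
    · intro u v huv
      exact hUi (congrArg Subtype.val huv)
    · rintro ⟨y, x, hx, rfl⟩
      exact ⟨⟨x, hx⟩, rfl⟩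
  let f : U ≃ₜ V := hf0.homeomorph
  have hf : ∀ u, ((f u : V) : E (m + 1)) = H u := fun u => rfl
  have hfloc : ∀ (u : U) (p : E (m + 1) → V), (∀ᶠ y : V in 𝓝 (f u), p (y : E (m + 1)) = y) →
      (f : U → V) =ᶠ[𝓝 u] fun u' => p (H u') := by
    intro u p hp
    have h1 : ∀ᶠ u' in 𝓝 u, p ((f u' : V) : E (m + 1)) = f u' :=
      (f.continuous.tendsto u).eventually hp
    filter_upwards [h1] with u' hu'
    exact hu'.symm
  have hty : ∀ u, Iso.Gd m f u ∨ Iso.Gd m f.symm (f u) := by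
    intro u
    obtain ⟨p, p1, p2, p3, p4⟩ := (LD_val (n := m + 1) V (f u)).exists_inverse
    obtain ⟨q, q1, q2, q3, q4⟩ := (LD_val (n := m + 1) U u).exists_inverse
    rcases hint u ((hUm u).1 u.2) with h | ⟨k, k1, k2⟩
    · left
      refine Iso.Gd.congr ?_ (hfloc u p p3)
      exact Iso.Gd.comp H (Subtype.val : U → E (m + 1)) p u (LD_val U u) h p1
    · right
      have hkx : k (H u) = u := k1.self_of_nhds
      have hsym : Tendsto f.symm (𝓝 (f u)) (𝓝 u) := by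
        have := f.symm.continuous.tendsto (f u)
        rwa [f.symm_apply_apply] at this
      have c1 : (f.symm : V → U) =ᶠ[𝓝 (f u)] fun v => q (k (v : E (m + 1))) := by
        have g1 : ∀ᶠ v in 𝓝 (f u), k (H (f.symm v : U)) = (f.symm v : U) :=
          ((continuous_subtype_val.tendsto u).comp hsym).eventually k1
        have g2 : ∀ᶠ v in 𝓝 (f u), q ((f.symm v : U) : E (m + 1)) = f.symm v :=
          hsym.eventually q3
        filter_upwards [g1, g2] with v hv1 hv2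
        rw [← hf, f.apply_symm_apply] at hv1
        rw [hv1, hv2]
      refine Iso.Gd.congr ?_ c1
      refine Iso.Gd.comp k (Subtype.val : V → E (m + 1)) q (f u) (LD_val V (f u)) k2 ?_
      show LD (m + 1) q (k (H u))
      rw [hkx]
      exact q1
  obtain ⟨δ, e1, e2, e3⟩ := shell_of_forall (n := m + 1) (p := fun y => LD (m + 1) H y)
    fun x hx => (hout x hx.ge (by rw [hx]; linarith)).eventually
  have hLDf : ∀ u : U, LD (m + 1) H u → LD (m + 1) f u := by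
    intro u hu
    obtain ⟨p, p1, p2, p3, p4⟩ := (LD_val (n := m + 1) V (f u)).exists_inverse
    refine LD.congr ?_ (hfloc u p p3)
    exact LD.comp_fun (g := p) (f := fun u' : U => H u') p1
      (LD.comp_fun (g := H) hu (LD_val U u))
  have i7 : SigmaCompactSpace U := by
    have i6 : LocallyCompactSpace U := ChartedSpace.locallyCompactSpace (E (m + 1)) U
    infer_instance
  obtain ⟨K, k1, k2, k3, k4, k5, k6⟩ := Iso.mixed (m := m) f ∅ isClosed_empty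
    (fun u _ => hty u) {u | ‖(u : E (m + 1))‖ < 1 - δ / 2}
    (isOpen_lt continuous_subtype_val.norm continuous_const)
    (fun u hu _ => hLDf u (e3 u ⟨by
      have : ¬ ‖(u : E (m + 1))‖ < 1 - δ / 2 := hu
      linarith, by linarith [(hUm u).1 u.2]⟩)) univ isOpen_univ (fun _ => mem_univ _)
  obtain ⟨F, hF1, hF2⟩ : ∃ F : E (m + 1) → E (m + 1), (∀ u : U, F u = (K (1, u) : V)) ∧
      ∀ x, x ∉ U → F x = H x := by
    refine ⟨fun x => if h : x ∈ U then (K (1, ⟨x, h⟩) : V) else H x, fun u => dif_pos u.2,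
      fun x hx => dif_neg hx⟩
  have hF3 : ∀ x, 1 - δ / 2 ≤ ‖x‖ → F x = H x := by
    intro x hx
    by_cases h : x ∈ U
    · have h1 := hF1 ⟨x, h⟩
      rw [k4 1 ⟨x, h⟩ (Or.inr (not_lt.2 hx))] at h1
      exact h1
    · exact hF2 x h
  have hFin : ∀ x, x ∈ U → F x ∈ H '' ball 0 1 := by
    intro x hx
    rw [hF1 ⟨x, hx⟩]
    exact (K (1, ⟨x, hx⟩)).2
  have hFball : F '' ball 0 1 = H '' ball 0 1 := by
    apply Subset.antisymm
    · rintro _ ⟨x, hx, rfl⟩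
      exact hFin x hx
    · intro y hy
      obtain ⟨u, hu⟩ := (k2 1).2 ⟨y, hy⟩
      refine ⟨u, u.2, ?_⟩
      rw [hF1]
      exact congrArg Subtype.val hu
  have hFL : ∀ x, ‖x‖ < 1 + η → LD (m + 1) F x := by
    intro x hx
    by_cases h : x ∈ U
    · obtain ⟨q, q1, q2, q3, q4⟩ := (LD_val (n := m + 1) U ⟨x, h⟩).exists_inverse
      have h1 : F =ᶠ[𝓝 x] fun y => ((K (1, q y) : V) : E (m + 1)) := by
        have h2 : ∀ᶠ y in 𝓝 x, ((q y : U) : E (m + 1)) = y := q4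
        filter_upwards [h2] with y hy
        have h3 := hF1 (q y)
        rwa [hy] at h3
      refine LD.congr ?_ h1
      have h4 : LD (m + 1) (fun u : U => K (1, u)) (q x) := k6 (q x) (notMem_empty _)
      exact LD.comp_fun (LD_val V _) (LD.comp_fun (g := fun u : U => K (1, u)) h4 q1)
    · have hx1 : 1 ≤ ‖x‖ := by
        by_contra h1
        exact h ((hUm x).2 (not_le.1 h1))
      refine LD.congr (hout x hx1 hx) ?_
      have h2 : 1 - δ / 2 < ‖x‖ := by linarith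
      filter_upwards [(isOpen_lt continuous_const continuous_norm).mem_nhds h2] with y hy
      exact hF3 y (le_of_lt hy)
  have hFi : InjOn F (ball 0 (1 + η)) := by
    have cross : ∀ x y, x ∈ U → y ∉ U → y ∈ ball (0 : E (m + 1)) (1 + η) → F x ≠ F y := by
      intro x y hx hy hy' hxy
      rw [hF2 y hy] at hxy
      obtain ⟨z, hz, hz'⟩ := hFin x hx
      rw [hxy] at hz'
      exact hy (hi (hb1 hz) hy' hz' ▸ hz)
    intro x hx y hy hxy
    by_cases h1 : x ∈ U <;> by_cases h2 : y ∈ U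
    · rw [hF1 ⟨x, h1⟩, hF1 ⟨y, h2⟩] at hxy
      exact congrArg Subtype.val ((k2 1).1 (Subtype.ext hxy))
    · exact absurd hxy (cross x y h1 h2 hy)
    · exact absurd hxy.symm (cross y x h2 h1 hx)
    · rw [hF2 x h1, hF2 y h2] at hxy
      exact hi hx hy hxy
  obtain ⟨F', O, R', q1, q2, q3, q4, q5⟩ := stSch1 m F η hη
    (fun x hx => (hFL x (mem_ball_zero_iff.1 hx)).continuousAt.continuousWithinAt) hFi
    (fun x _ hx => hFL x hx) (fun x hx hn => absurd (hFL x (by linarith)) hn)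
  refine ⟨F', O, R', q1, q2, fun x hx => (q3 x hx).trans (hF3 x (by rw [hx]; linarith)), ?_, q5⟩
  rw [q4]
  have h1 : closedBall (0 : E (m + 1)) 1 = ball 0 1 ∪ sphere 0 1 := (ball_union_sphere).symm
  have h2 : F '' sphere 0 1 = H '' sphere 0 1 := image_congr fun x hx => hF3 x (by
    rw [mem_sphere_zero_iff_norm.1 hx]
    linarith)
  rw [h1, image_union, image_union, hFball, h2]

theorem sf_coreM (m : ℕ) (Γ H G : E (m + 1) → E (m + 1)) (D : Set (E (m + 1)))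
    (hΓL : ∀ z ∈ D, LD (m + 1) Γ z) (hΓi : InjOn Γ D) (δ : ℝ) (hδ : 0 < δ)
    (hG : ∀ y ∈ A (m + 1) δ, ContDiffAt ℝ ∞ G y ∧ G y ∈ D ∧ Γ (G y) = H y)
    (hid : ∀ x, ‖x‖ = 1 → G x = x) (hn : ∀ x, 1 - δ < ‖x‖ → ‖x‖ < 1 → ‖G x‖ < 1)
    (hHc : ContinuousOn H (closedBall 0 1)) (hHi : InjOn H (closedBall 0 1))
    (hint : ∀ x, ‖x‖ < 1 → Iso.Gd m H x ∨ GB m H x) :
    ∃ (F : E (m + 1) → E (m + 1)) (O : E (m + 1) ≃ₗᵢ[ℝ] E (m + 1)) (R' : ℝ), Bijective F ∧
      (∀ x, LD (m + 1) F x) ∧ (∀ x, ‖x‖ = 1 → F x = H x) ∧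
      F '' closedBall 0 1 = H '' closedBall 0 1 ∧ ∀ x, R' ≤ ‖x‖ → F x = O x := by
  classical
  have hsph : ∀ x : E (m + 1), ‖x‖ = 1 → A (m + 1) δ ∈ 𝓝 x := fun x hx =>
    (isOpen_A δ).mem_nhds ⟨by rw [hx]; linarith, by rw [hx]; linarith⟩
  obtain ⟨δ₁, Ψ, l1, l2, l3, p1, p2, p3, p4, p5, p6, p7⟩ := radial δ hδ G
    (fun x hx => by
      filter_upwards [hsph x hx] with y hy
      exact (hG y hy).1) hid
    (by
      rintro x ⟨hx1, hx2⟩ y ⟨hy1, hy2⟩ hxy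
      refine hHi (mem_closedBall_zero_iff.2 hx2) (mem_closedBall_zero_iff.2 hy2) ?_
      rw [← (hG x ⟨hx1, by linarith⟩).2.2, ← (hG y ⟨hy1, by linarith⟩).2.2, hxy]) hn
  obtain ⟨S, hS⟩ : ∃ S : Set (E (m + 1)), S = {x | 1 - δ₁ ≤ ‖x‖ ∧ ‖x‖ ≤ 1} := ⟨_, rfl⟩
  rw [← hS] at p6 p7
  have hSm : ∀ x, x ∈ S ↔ 1 - δ₁ ≤ ‖x‖ ∧ ‖x‖ ≤ 1 := fun x => by rw [hS]; rfl
  have hSA : ∀ x ∈ S, x ∈ A (m + 1) δ := fun x hx =>
    ⟨by linarith [((hSm x).1 hx).1], by linarith [((hSm x).1 hx).2]⟩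
  have hΨD : ∀ x ∈ S, Ψ x ∈ D := by
    intro x hx
    have h1 : Ψ x ∈ G '' S := p7 ▸ mem_image_of_mem Ψ hx
    obtain ⟨y, hy, hyx⟩ := h1
    rw [← hyx]
    exact (hG y (hSA y hy)).2.1
  have hΓΨ : ∀ x ∈ S, ∃ y ∈ S, Γ (Ψ x) = H y := by
    intro x hx
    have h1 : Ψ x ∈ G '' S := p7 ▸ mem_image_of_mem Ψ hx
    obtain ⟨y, hy, hyx⟩ := h1
    exact ⟨y, hy, by rw [← hyx, (hG y (hSA y hy)).2.2]⟩
  have hHΨ : ∀ y ∈ S, ∃ x ∈ S, Γ (Ψ x) = H y := by
    intro y hy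
    have h1 : G y ∈ Ψ '' S := p7 ▸ mem_image_of_mem G hy
    obtain ⟨x, hx, hyx⟩ := h1
    exact ⟨x, hx, by rw [hyx, (hG y (hSA y hy)).2.2]⟩
  obtain ⟨H', hH'1, hH'2⟩ : ∃ H' : E (m + 1) → E (m + 1), (∀ x, ‖x‖ < 1 - δ₁ → H' x = H x) ∧
      ∀ x, 1 - δ₁ ≤ ‖x‖ → H' x = Γ (Ψ x) :=
    ⟨fun x => if ‖x‖ < 1 - δ₁ then H x else Γ (Ψ x), fun x hx => if_pos hx,
      fun x hx => if_neg (not_lt.2 hx)⟩
  have near1 : ∀ x, ‖x‖ ≤ 1 - δ₁ → H' =ᶠ[𝓝 x] H := by
    intro x hx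
    rcases hx.eq_or_lt with hx | hx
    · have hxA : A (m + 1) δ ∈ 𝓝 x :=
        (isOpen_A δ).mem_nhds ⟨by rw [hx]; linarith, by rw [hx]; linarith⟩
      filter_upwards [p2 x hx, hxA] with y hy hy'
      by_cases h : ‖y‖ < 1 - δ₁
      · exact hH'1 y h
      · rw [hH'2 y (not_lt.1 h), hy, (hG y hy').2.2]
    · filter_upwards [(isOpen_lt continuous_norm continuous_const).mem_nhds hx] with y hy
      exact hH'1 y hy
  have near2 : ∀ x, 1 - δ₁ < ‖x‖ → H' =ᶠ[𝓝 x] fun y => Γ (Ψ y) := by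
    intro x hx
    filter_upwards [(isOpen_lt continuous_const continuous_norm).mem_nhds hx] with y hy
    exact hH'2 y (le_of_lt hy)
  have hinj : InjOn H' (closedBall 0 1) := by
    have cross : ∀ x y : E (m + 1), ‖x‖ < 1 - δ₁ → y ∈ S → H' x ≠ H' y := by
      intro x y hx hy hxy
      rw [hH'1 x hx, hH'2 y ((hSm y).1 hy).1] at hxy
      obtain ⟨z, hz, hz'⟩ := hΓΨ y hy
      rw [hz'] at hxy
      have h1 := hHi (mem_closedBall_zero_iff.2 (by linarith))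
        (mem_closedBall_zero_iff.2 ((hSm z).1 hz).2) hxy
      rw [h1] at hx
      linarith [((hSm z).1 hz).1]
    intro x hx y hy hxy
    rw [mem_closedBall_zero_iff] at hx hy
    rcases lt_or_ge ‖x‖ (1 - δ₁) with h1 | h1 <;> rcases lt_or_ge ‖y‖ (1 - δ₁) with h2 | h2
    · rw [hH'1 x h1, hH'1 y h2] at hxy
      exact hHi (mem_closedBall_zero_iff.2 hx) (mem_closedBall_zero_iff.2 hy) hxy
    · exact absurd hxy (cross x y h1 ((hSm y).2 ⟨h2, hy⟩))
    · exact absurd hxy.symm (cross y x h2 ((hSm x).2 ⟨h1, hx⟩))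
    · rw [hH'2 x h1, hH'2 y h2] at hxy
      have hx' := (hSm x).2 ⟨h1, hx⟩
      have hy' := (hSm y).2 ⟨h2, hy⟩
      exact p6 hx' hy' (hΓi (hΨD x hx') (hΨD y hy') hxy)
  have himg : H' '' closedBall 0 1 = H '' closedBall 0 1 := by
    apply Subset.antisymm
    · rintro _ ⟨x, hx, rfl⟩
      rw [mem_closedBall_zero_iff] at hx
      rcases lt_or_ge ‖x‖ (1 - δ₁) with h1 | h1
      · rw [hH'1 x h1]
        exact ⟨x, mem_closedBall_zero_iff.2 hx, rfl⟩
      · obtain ⟨y, hy, hy'⟩ := hΓΨ x ((hSm x).2 ⟨h1, hx⟩)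
        rw [hH'2 x h1, hy']
        exact ⟨y, mem_closedBall_zero_iff.2 ((hSm y).1 hy).2, rfl⟩
    · rintro _ ⟨x, hx, rfl⟩
      rw [mem_closedBall_zero_iff] at hx
      rcases lt_or_ge ‖x‖ (1 - δ₁) with h1 | h1
      · rw [← hH'1 x h1]
        exact ⟨x, mem_closedBall_zero_iff.2 hx, rfl⟩
      · obtain ⟨y, hy, hy'⟩ := hHΨ x ((hSm x).2 ⟨h1, hx⟩)
        rw [← hy', ← hH'2 y ((hSm y).1 hy).1]
        exact ⟨y, mem_closedBall_zero_iff.2 ((hSm y).1 hy).2, rfl⟩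
  have hLDs : ∀ x, ‖x‖ = 1 → LD (m + 1) H' x := by
    intro x hx
    have hxS : x ∈ S := (hSm x).2 ⟨by rw [hx]; linarith, hx.le⟩
    refine LD.congr ?_ (near2 x (by rw [hx]; linarith))
    exact LD.comp_fun (hΓL _ (hΨD x hxS)) (p4 x hx)
  have hH's : ∀ x, ‖x‖ = 1 → H' x = H x := by
    intro x hx
    have hxA : x ∈ A (m + 1) δ := mem_of_mem_nhds (hsph x hx)
    have h1 : Γ x = H x := by
      have := (hG x hxA).2.2
      rwa [hid x hx] at this
    rw [hH'2 x (by rw [hx]; linarith), p3 x hx, h1]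
  have hcont : ∀ x, ‖x‖ ≤ 1 → ContinuousAt H' x := by
    intro x hx
    rcases le_or_gt ‖x‖ (1 - δ₁) with h1 | h1
    · have h2 : closedBall (0 : E (m + 1)) 1 ∈ 𝓝 x :=
        mem_of_superset (isOpen_ball.mem_nhds (mem_ball_zero_iff.2 (by linarith)))
          ball_subset_closedBall
      exact (hHc.continuousAt h2).congr (near1 x h1).symm
    · have h2 : ContinuousAt (fun y => Γ (Ψ y)) x :=
        ContinuousAt.comp (hΓL _ (hΨD x ((hSm x).2 ⟨h1.le, hx⟩))).continuousAt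
          (p1 x h1.le hx).self_of_nhds.continuousAt
      exact h2.congr (near2 x h1).symm
  -- injectivity near the closed ball
  obtain ⟨t, ht, hti⟩ := hinj.exists_mem_nhdsSet (isCompact_closedBall 0 1)
    (fun x hx => hcont x (mem_closedBall_zero_iff.1 hx)) (fun x hx => by
      rcases (mem_closedBall_zero_iff.1 hx).eq_or_lt with h1 | h1
      · exact (hLDs x h1).eventually_injOn
      · exact ⟨ball 0 1, isOpen_ball.mem_nhds (mem_ball_zero_iff.2 h1),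
          hinj.mono ball_subset_closedBall⟩)
  obtain ⟨V, hVo, hVs, hVt⟩ := mem_nhdsSet_iff_exists.1 ht
  obtain ⟨δ', hδ', hth⟩ := (isCompact_closedBall (0 : E (m + 1)) 1).exists_thickening_subset_open
    hVo hVs
  rw [thickening_closedBall hδ' zero_le_one] at hth
  obtain ⟨δ'', e1, e2, e3⟩ := shell_of_forall (n := m + 1) (p := fun y => LD (m + 1) H' y)
    fun x hx => (hLDs x hx).eventually
  obtain ⟨η, hη, hη1, hη2⟩ : ∃ η, 0 < η ∧ η ≤ δ' ∧ η ≤ δ'' :=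
    ⟨min δ' δ'', by positivity, min_le_left _ _, min_le_right _ _⟩
  have hout : ∀ x : E (m + 1), 1 ≤ ‖x‖ → ‖x‖ < 1 + η → LD (m + 1) H' x := fun x h1 h2 =>
    e3 x ⟨by linarith, by linarith⟩
  obtain ⟨F, O, R', q1, q2, q3, q4, q5⟩ := mixsch m H' η hη (by
      intro x hx
      rw [mem_ball_zero_iff] at hx
      rcases le_total ‖x‖ 1 with h | h
      · exact (hcont x h).continuousWithinAt
      · exact (hout x h hx).continuousAt.continuousWithinAt)
    (hti.mono fun x hx => hVt (hth (by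
      rw [mem_ball_zero_iff] at hx ⊢
      linarith))) hout (by
      intro x hx
      rcases le_or_gt ‖x‖ (1 - δ₁) with h1 | h1
      · exact (hint x hx).imp (fun h2 => h2.congr (near1 x h1)) (fun h2 => h2.congr (near1 x h1))
      · left
        have key : ∀ y : E (m + 1), 1 - δ₁ < ‖y‖ → ‖y‖ < 1 →
            ContDiffAt ℝ ∞ (fun y => Γ (Ψ y)) y ∧ m ≤ Module.finrank ℝ
              (LinearMap.range (fderiv ℝ (fun y => Γ (Ψ y)) y).toLinearMap) := by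
          intro y g1 g2
          have hyS : y ∈ S := (hSm y).2 ⟨g1.le, g2.le⟩
          refine ⟨(hΓL _ (hΨD y hyS)).contDiffAt.comp y (p1 y g1.le g2.le).self_of_nhds, ?_⟩
          refine rank_of_perp (w := y) ?_ _ ?_
          · intro h
            rw [h, norm_zero] at g1
            linarith
          · intro v hv hv'
            obtain ⟨B, hB⟩ := (hΓL _ (hΨD y hyS)).exists_equiv
            have h4 : HasFDerivAt (fun y => Γ (Ψ y)) ((B : E (m + 1) →L[ℝ] E (m + 1)).comp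
                (fderiv ℝ Ψ y)) y :=
              hB.comp y ((p1 y g1.le g2.le).self_of_nhds.differentiableAt (by simp)).hasFDerivAt
            rw [h4.fderiv] at hv'
            have h5 : B (fderiv ℝ Ψ y v) = 0 := hv'
            have h6 : fderiv ℝ Ψ y v = 0 := by
              have h14 := congrArg B.symm h5
              rwa [B.symm_apply_apply, map_zero] at h14
            exact p5 y g1.le g2.le v hv h6
        have h2 : Iso.Gd m (fun y => Γ (Ψ y)) x := by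
          filter_upwards [(isOpen_lt continuous_const continuous_norm).mem_nhds h1,
            (isOpen_lt continuous_norm continuous_const).mem_nhds hx] with y g1 g2
          obtain ⟨k1, k2⟩ := key y g1 g2
          refine ⟨k1.contMDiffAt, ?_⟩
          rw [mfderiv_eq_fderiv]
          exact k2
        exact h2.congr (near2 x h1))
  exact ⟨F, O, R', q1, q2, fun x hx => (q3 x hx).trans (hH's x hx), q4.trans himg, q5⟩

/-- **Schoenflies theorem, in either direction, up to the boundary** -/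
theorem sfM (m : ℕ) (hm : 1 ≤ m) (Γ H : E (m + 1) → E (m + 1))
    (hΓ : ∀ x, ‖x‖ = 1 → LD (m + 1) Γ x) (hHc : ContinuousOn H (closedBall 0 1))
    (hHi : InjOn H (closedBall 0 1)) (hH : ∀ x, ‖x‖ = 1 → H x = Γ x)
    (hHs : ∀ x, ‖x‖ = 1 → ∀ᶠ y in 𝓝 x, ContDiffAt ℝ ∞ H y)
    (hint : ∀ x, ‖x‖ < 1 → Iso.Gd m H x ∨ GB m H x) :
    ∃ (F : E (m + 1) → E (m + 1)) (O : E (m + 1) ≃ₗᵢ[ℝ] E (m + 1)) (R' : ℝ), Bijective F ∧
      (∀ x, LD (m + 1) F x) ∧ (∀ x, ‖x‖ = 1 → F x = H x) ∧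
      F '' closedBall 0 1 = H '' closedBall 0 1 ∧ ∀ x, R' ≤ ‖x‖ → F x = O x := by
  classical
  obtain ⟨δa', a1, a2, a3⟩ := shell_of_forall (n := m + 1) (p := fun y => LD (m + 1) Γ y)
    fun x hx => (hΓ x hx).eventually
  have hΓsph : InjOn Γ (sphere (0 : E (m + 1)) 1) := by
    intro x hx y hy hxy
    have hx' := mem_sphere_zero_iff_norm.1 hx
    have hy' := mem_sphere_zero_iff_norm.1 hy
    rw [← hH x hx', ← hH y hy'] at hxy
    exact hHi (sphere_subset_closedBall hx) (sphere_subset_closedBall hy) hxy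
  obtain ⟨t, ht, hti⟩ := hΓsph.exists_mem_nhdsSet (isCompact_sphere 0 1)
    (fun x hx => (hΓ x (mem_sphere_zero_iff_norm.1 hx)).continuousAt)
    (fun x hx => (hΓ x (mem_sphere_zero_iff_norm.1 hx)).eventually_injOn)
  obtain ⟨δb', b1, b2, b3⟩ := shell ht
  obtain ⟨δa, c1, c2, c3⟩ : ∃ δa, 0 < δa ∧ δa ≤ δa' ∧ δa ≤ δb' :=
    ⟨min δa' δb', by positivity, min_le_left _ _, min_le_right _ _⟩
  have g1 : ∀ y ∈ A (m + 1) δa, LD (m + 1) Γ y := fun y hy => a3 y (A_mono c2 hy)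
  have g2 : InjOn Γ (A (m + 1) δa) := hti.mono ((A_mono c3).trans b3)
  have hsub : ∀ x : E (m + 1), ‖x‖ = 1 → x ∈ A (m + 1) δa := fun x hx =>
    ⟨by rw [hx]; linarith, by rw [hx]; linarith⟩
  have hne : ∀ y ∈ A (m + 1) δa, y ≠ 0 := by
    intro y hy h
    have := hy.1
    rw [h, norm_zero] at this
    linarith
  have hTo : IsOpen (Γ '' A (m + 1) δa) := isOpen_image_of_LD (isOpen_A δa) g1
  let g : E (m + 1) → E (m + 1) := invFunOn Γ (A (m + 1) δa)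
  have hg1 : ∀ y ∈ A (m + 1) δa, g (Γ y) = y := fun y hy => g2.leftInvOn_invFunOn hy
  have hg2 : ∀ z ∈ Γ '' A (m + 1) δa, g z ∈ A (m + 1) δa ∧ Γ (g z) = z ∧ LD (m + 1) g z := by
    rintro z ⟨y, hy, rfl⟩
    rw [hg1 y hy]
    exact ⟨hy, rfl, LD.inverse (isOpen_A δa) g1 hg1 hy⟩
  obtain ⟨δ, d1, d2, d3⟩ := shell_of_forall (n := m + 1) (p := fun y => ContDiffAt ℝ ∞ H y ∧
      H y ∈ Γ '' A (m + 1) δa) fun x hx => by
    refine (hHs x hx).and ((hHs x hx).self_of_nhds.continuousAt.eventually (hTo.mem_nhds ?_))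
    rw [hH x hx]
    exact mem_image_of_mem Γ (hsub x hx)
  obtain ⟨G₀, hG₀⟩ : ∃ G₀ : E (m + 1) → E (m + 1), G₀ = fun x => g (H x) := ⟨_, rfl⟩
  have hG₀e : ∀ x, G₀ x = g (H x) := fun x => by rw [hG₀]
  have e1 : ∀ y ∈ A (m + 1) δ, ContDiffAt ℝ ∞ G₀ y ∧ G₀ y ∈ A (m + 1) δa ∧ Γ (G₀ y) = H y := by
    intro y hy
    obtain ⟨h1, h2⟩ := d3 y hy
    obtain ⟨h3, h4, h5⟩ := hg2 _ h2
    rw [hG₀e]
    refine ⟨?_, h3, h4⟩
    rw [hG₀]
    exact h5.contDiffAt.comp y h1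
  have e2 : ∀ x, ‖x‖ = 1 → G₀ x = x := by
    intro x hx
    rw [hG₀e, hH x hx, hg1 x (hsub x hx)]
  have e3 : ∀ x, 1 - δ < ‖x‖ → ‖x‖ < 1 → ‖G₀ x‖ ≠ 1 := by
    intro x h1 h2 h3
    have h4 := (e1 x ⟨h1, by linarith⟩).2.2
    rw [← hH _ h3] at h4
    have h5 := hHi (mem_closedBall_zero_iff.2 h3.le) (mem_closedBall_zero_iff.2 h2.le) h4
    rw [h5] at h3
    linarith
  have hpre := shell_preconnected (m := m) hm δ d2
  have hc : ContinuousOn (fun x => ‖G₀ x‖) {x : E (m + 1) | 1 - δ < ‖x‖ ∧ ‖x‖ < 1} := by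
    rintro x ⟨h1, h2⟩
    exact (e1 x ⟨h1, by linarith⟩).1.continuousAt.norm.continuousWithinAt
  by_cases hside : ∃ x : E (m + 1), (1 - δ < ‖x‖ ∧ ‖x‖ < 1) ∧ ‖G₀ x‖ < 1
  · obtain ⟨x₀, hx₀, hx₀'⟩ := hside
    refine sf_coreM m Γ H G₀ (A (m + 1) δa) g1 g2 δ d1 e1 e2 ?_ hHc hHi hint
    intro x h1 h2
    by_contra h3
    have h4 : 1 < ‖G₀ x‖ := lt_of_le_of_ne (not_lt.1 h3) (e3 x h1 h2).symm
    obtain ⟨z, hz, hz'⟩ := hpre.intermediate_value hx₀ (show x ∈ {x : E (m + 1) |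
      1 - δ < ‖x‖ ∧ ‖x‖ < 1} from ⟨h1, h2⟩) hc ⟨hx₀'.le, h4.le⟩
    exact e3 z hz.1 hz.2 hz'
  · refine sf_coreM m (fun z => Γ (iv z)) H (fun x => iv (G₀ x))
      {z | z ≠ 0 ∧ iv z ∈ A (m + 1) δa} ?_ ?_ δ d1 ?_ ?_ ?_ hHc hHi hint
    · rintro z ⟨hz1, hz2⟩
      exact LD.comp_fun (g1 _ hz2) (LD_iv hz1)
    · rintro z ⟨hz1, hz2⟩ w ⟨hw1, hw2⟩ hzw
      have h1 : iv z = iv w := g2 hz2 hw2 hzw
      rw [← iv_iv hz1, ← iv_iv hw1, h1]
    · intro y hy
      obtain ⟨h1, h2, h3⟩ := e1 y hy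
      have h4 := hne _ h2
      refine ⟨(iv_smooth h4).comp y h1, ⟨iv_ne h4, ?_⟩, ?_⟩
      · rw [iv_iv h4]
        exact h2
      · show Γ (iv (iv (G₀ y))) = H y
        rw [iv_iv h4]
        exact h3
    · intro x hx
      show iv (G₀ x) = x
      rw [e2 x hx, iv, hx, one_pow, inv_one, one_smul]
    · intro x h1 h2
      have h3 := (e1 x ⟨h1, by linarith⟩).2.1
      show ‖iv (G₀ x)‖ < 1
      rw [norm_iv (hne _ h3)]
      have h4 : 1 < ‖G₀ x‖ := by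
        refine lt_of_le_of_ne (not_lt.1 fun h => hside ⟨x, ⟨h1, h2⟩, h⟩) (e3 x h1 h2).symm
      exact inv_lt_one_of_one_lt₀ h4

end Pool.Agent.V1127.Sf
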